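import Pool.Agent.H37.CC.Defs
import Pool.Agent.H54.CV.V1

/-!
# THEOREM CCC, chapter LOCAL, L1: configurations and near symmetries
-/

set_option autoImplicit false

namespace Pool.Agent.H37.CC

open scoped Pointwise

section

variable {H : Type} [PartialOrder H] [Bas H]

theorem Spt.symm {w : H} {y z : Vtx H} (h : Spt w y z) : Spt w z y := fun h1 => h h1.symm

/-- if `w` separates `y` and `z` then it separates every vertex from one of them -/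
theorem Spt.or {w : H} {y z : Vtx H} (h : Spt w y z) (x : Vtx H) : Spt w x y ∨ Spt w x z := by
  by_cases h1 : Spt w x y
  · exact Or.inl h1
  · refine Or.inr fun h2 => h ?_
    have h3 : w ∈ x.U ↔ w ∈ y.U := not_not.1 h1
    exact h3.symm.trans h2

/-- equality of configurations with the same centre -/
theorem Cf_eq_iff {r : ℕ} {P P' : Set (Vtx H) × Set H} {y : Vtx H} :
    Cf r P y = Cf r P' y ↔ (∀ z, ds y z ≤ r → (z ∈ P.1 ↔ z ∈ P'.1)) ∧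
      ∀ w, ∀ z ∈ P.1, ds y z ≤ r → Spt w y z → (w ∈ P.2 ↔ w ∈ P'.2) := by
  unfold Cf
  rw [Prod.mk.injEq, Prod.mk.injEq, Set.ext_iff, Set.ext_iff]
  constructor
  · rintro ⟨_, h1, h2⟩
    have h3 : ∀ z, ds y z ≤ r → (z ∈ P.1 ↔ z ∈ P'.1) := fun z hz =>
      ⟨fun a => ((h1 z).1 ⟨a, hz⟩).1, fun a => ((h1 z).2 ⟨a, hz⟩).1⟩
    refine ⟨h3, fun w z hz hd hs => ⟨fun a => ((h2 w).1 ⟨a, z, hz, hd, hs⟩).1, fun a => ?_⟩⟩
    exact ((h2 w).2 ⟨a, z, (h3 z hd).1 hz, hd, hs⟩).1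
  · rintro ⟨h1, h2⟩
    refine ⟨rfl, fun z => ⟨fun a => ⟨(h1 z a.2).1 a.1, a.2⟩, fun a => ⟨(h1 z a.2).2 a.1, a.2⟩⟩, fun w => ⟨?_, ?_⟩⟩
    · rintro ⟨a, z, hz, hd, hs⟩
      exact ⟨(h2 w z hz hd hs).1 a, z, (h1 z hd).1 hz, hd, hs⟩
    · rintro ⟨a, z, hz, hd, hs⟩
      have hz' := (h1 z hd).2 hz
      exact ⟨(h2 w z hz' hd hs).2 a, z, hz', hd, hs⟩

/-- a configuration of smaller radius around a near point is determined -/
theorem Cf_move {r t : ℕ} {P P' : Set (Vtx H) × Set H} {y z : Vtx H} (hy : y ∈ P.1) (hz : z ∈ P.1) (hd : ds y z ≤ t)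
    (h : Cf (r + t) P y = Cf (r + t) P' y) : Cf r P z = Cf r P' z := by
  have _ := hy
  rw [Cf_eq_iff] at h ⊢
  have key : ∀ u, ds z u ≤ r → ds y u ≤ r + t := by
    intro u hu
    have := Pool.Agent.H54.CV.ds_tri y z u
    omega
  refine ⟨fun u hu => h.1 u (key u hu), fun w u hu hu' hs => ?_⟩
  rcases hs.or y with h1 | h1
  · exact h.2 w z hz (by omega) h1
  · exact h.2 w u hu (key u hu') h1

end

section

variable {G H : Type} [Group G] [PartialOrder H] [Bas H] [MulAction G H] [BAct G H]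

theorem smul_Spt {g : G} {w : H} {y z : Vtx H} : Spt (g • w) (g • y) (g • z) ↔ Spt w y z := by
  unfold Spt
  rw [smul_mem_smul, smul_mem_smul]

theorem Spt_smul' {g : G} {w : H} {y z : Vtx H} : Spt w (g • y) (g • z) ↔ Spt (g⁻¹ • w) y z := by
  have h := smul_Spt (g := g) (w := g⁻¹ • w) (y := y) (z := z)
  rwa [smul_inv_smul] at h

theorem Cf_smul (g : G) (r : ℕ) (P : Set (Vtx H) × Set H) (y : Vtx H) : Cf r (g • P) (g • y) = g • Cf r P y := by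
  unfold Cf
  refine Prod.ext rfl (Prod.ext ?_ ?_)
  · ext z
    show (z ∈ g • P.1 ∧ ds (g • y) z ≤ r) ↔ z ∈ g • {z ∈ P.1 | ds y z ≤ r}
    rw [Set.mem_smul_set_iff_inv_smul_mem, Set.mem_smul_set_iff_inv_smul_mem]
    have h1 : ds (g • y) z = ds y (g⁻¹ • z) := by
      rw [← Pool.Agent.H54.CV.ds_smul g y (g⁻¹ • z), smul_inv_smul]
    rw [h1]
    rfl
  · ext w
    show (w ∈ g • P.2 ∧ ∃ z ∈ g • P.1, ds (g • y) z ≤ r ∧ Spt w (g • y) z) ↔
      w ∈ g • {w ∈ P.2 | ∃ z ∈ P.1, ds y z ≤ r ∧ Spt w y z}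
    rw [Set.mem_smul_set_iff_inv_smul_mem, Set.mem_smul_set_iff_inv_smul_mem]
    constructor
    · rintro ⟨h1, z, hz, hd, hs⟩
      rw [Set.mem_smul_set_iff_inv_smul_mem] at hz
      refine ⟨h1, g⁻¹ • z, hz, ?_, ?_⟩
      · rw [← Pool.Agent.H54.CV.ds_smul g y (g⁻¹ • z), smul_inv_smul]
        exact hd
      · rw [← Spt_smul', smul_inv_smul]
        exact hs
    · rintro ⟨h1, z, hz, hd, hs⟩
      refine ⟨h1, g • z, ?_, ?_, ?_⟩
      · rw [Set.mem_smul_set_iff_inv_smul_mem, inv_smul_smul]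
        exact hz
      · rw [Pool.Agent.H54.CV.ds_smul]
        exact hd
      · rw [Spt_smul']
        exact hs

/-- near symmetries: pointwise description -/
theorem Tb_iff {b r : ℕ} {P : Set (Vtx H) × Set H} {y : Vtx H} {γ : G} :
    γ ∈ Tb G b r P y ↔ γ • y ∈ P.1 ∧ ds y (γ • y) ≤ b ∧ (∀ z, ds y z ≤ r → (γ • z ∈ P.1 ↔ z ∈ P.1)) ∧
      ∀ w, ∀ z ∈ P.1, ds y z ≤ r → Spt w y z → (γ • w ∈ P.2 ↔ w ∈ P.2) := by
  have e : (Cf r P (γ • y) = γ • Cf r P y) ↔ (∀ z, ds y z ≤ r → (γ • z ∈ P.1 ↔ z ∈ P.1)) ∧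
      ∀ w, ∀ z ∈ P.1, ds y z ≤ r → Spt w y z → (γ • w ∈ P.2 ↔ w ∈ P.2) := by
    have e1 : (Cf r P (γ • y) = γ • Cf r P y) ↔ Cf r (γ⁻¹ • P) y = Cf r P y := by
      have e2 : Cf r (γ⁻¹ • P) y = γ⁻¹ • Cf r P (γ • y) := by
        rw [← Cf_smul, inv_smul_smul]
      rw [e2]
      constructor
      · intro h
        rw [h, inv_smul_smul]
      · intro h
        rw [← h, smul_inv_smul]
    rw [e1, Cf_eq_iff]
    have m1 : ∀ z, z ∈ (γ⁻¹ • P).1 ↔ γ • z ∈ P.1 := by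
      intro z
      show z ∈ γ⁻¹ • P.1 ↔ _
      rw [Set.mem_smul_set_iff_inv_smul_mem, inv_inv]
    have m2 : ∀ z, z ∈ (γ⁻¹ • P).2 ↔ γ • z ∈ P.2 := by
      intro z
      show z ∈ γ⁻¹ • P.2 ↔ _
      rw [Set.mem_smul_set_iff_inv_smul_mem, inv_inv]
    constructor
    · rintro ⟨h1, h2⟩
      refine ⟨fun z hz => (m1 z).symm.trans (h1 z hz), fun w z hz hd hs => ?_⟩
      exact (m2 w).symm.trans (h2 w z ((h1 z hd).2 hz) hd hs)
    · rintro ⟨h1, h2⟩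
      refine ⟨fun z hz => (m1 z).trans (h1 z hz), fun w z hz hd hs => ?_⟩
      exact (m2 w).trans (h2 w z ((h1 z hd).1 ((m1 z).1 hz)) hd hs)
  unfold Tb
  rw [Set.mem_ofPred_eq, e]

theorem Tb_vert {b r : ℕ} {P : Set (Vtx H) × Set H} {y z : Vtx H} {γ : G} (hγ : γ ∈ Tb G b r P y) (hz : z ∈ P.1)
    (hd : ds y z ≤ r) : γ • z ∈ P.1 := ((Tb_iff.1 hγ).2.2.1 z hd).2 hz

/-- a smaller radius, a larger distance -/
theorem Tb_mono {b b' r r' : ℕ} (hb : b ≤ b') (hr : r' ≤ r) {P : Set (Vtx H) × Set H} {y : Vtx H} :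
    Tb G b r P y ⊆ Tb G b' r' P y := by
  intro γ hγ
  rw [Tb_iff] at hγ ⊢
  exact ⟨hγ.1, hγ.2.1.trans hb, fun z hz => hγ.2.2.1 z (hz.trans hr), fun w z hz hd hs =>
    hγ.2.2.2 w z hz (hd.trans hr) hs⟩

/-- another base point -/
theorem Tb_move {b r t : ℕ} {P : Set (Vtx H) × Set H} {y z : Vtx H} (hy : y ∈ P.1) (hz : z ∈ P.1) (hd : ds y z ≤ t)
    (hr : b + 2 * t ≤ r) : Tb G b r P y ⊆ Tb G (b + 2 * t) (r - t) P z := by
  have _ := hy
  intro γ hγ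
  rw [Tb_iff] at hγ ⊢
  obtain ⟨h1, h2, h3, h4⟩ := hγ
  have key : ∀ u, ds z u ≤ r - t → ds y u ≤ r := by
    intro u hu
    have := Pool.Agent.H54.CV.ds_tri y z u
    omega
  refine ⟨(h3 z (by omega)).2 hz, ?_, fun u hu => h3 u (key u hu), fun w u hu hu' hs => ?_⟩
  · have a1 := Pool.Agent.H54.CV.ds_tri z y (γ • z)
    have a2 := Pool.Agent.H54.CV.ds_tri y (γ • y) (γ • z)
    rw [Pool.Agent.H54.CV.ds_smul] at a2
    rw [Pool.Agent.H54.CV.ds_comm z y] at a1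
    omega
  · rcases hs.or y with h5 | h5
    · exact h4 w z hz (by omega) h5
    · exact h4 w u hu (key u hu') h5

theorem Tb_congr_sub {b r : ℕ} {P P' : Set (Vtx H) × Set H} {y : Vtx H}
    (h : Cf (r + b) P y = Cf (r + b) P' y) : Tb G b r P y ⊆ Tb G b r P' y := by
  intro γ hγ
  rw [Cf_eq_iff] at h
  rw [Tb_iff] at hγ ⊢
  obtain ⟨h1, h2, h3, h4⟩ := hγ
  have key : ∀ u, ds y u ≤ r → ds y (γ • u) ≤ r + b := by
    intro u hu
    have a2 := Pool.Agent.H54.CV.ds_tri y (γ • y) (γ • u)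
    rw [Pool.Agent.H54.CV.ds_smul] at a2
    omega
  refine ⟨(h.1 _ (by omega)).1 h1, h2, fun z hz => ?_, fun w z hz hd hs => ?_⟩
  · rw [← h.1 z (by omega), ← h.1 _ (key z hz)]
    exact h3 z hz
  · have hz' : z ∈ P.1 := (h.1 z (by omega)).2 hz
    rw [← h.2 w z hz' (by omega) hs]
    have e : γ • w ∈ P.2 ↔ γ • w ∈ P'.2 := by
      have hs' : Spt (γ • w) (γ • y) (γ • z) := smul_Spt.2 hs
      rcases hs'.or y with h5 | h5
      · exact h.2 _ _ h1 (by omega) h5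
      · exact h.2 _ _ ((h3 z hd).2 hz') (key z hd) h5
    rw [← e]
    exact h4 w z hz' hd hs

/-- the near symmetries depend only on the configuration -/
theorem Tb_congr {b r : ℕ} {P P' : Set (Vtx H) × Set H} {y : Vtx H} (hy : y ∈ P.1) (hb : b ≤ r)
    (h : Cf (r + b) P y = Cf (r + b) P' y) : Tb G b r P y = Tb G b r P' y := by
  have _ := hy
  have _ := hb
  exact Set.Subset.antisymm (Tb_congr_sub h) (Tb_congr_sub h.symm)

/-- the near symmetries of the configuration as a region -/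
theorem Tb_cf {b r t : ℕ} {P : Set (Vtx H) × Set H} {y : Vtx H} (hy : y ∈ P.1) (hb : b ≤ r) (ht : r + b ≤ t) :
    Tb G b r (Cf t P y).2 y = Tb G b r P y := by
  refine (Tb_congr hy hb ?_).symm
  rw [Cf_eq_iff]
  refine ⟨fun z hz => ⟨fun a => ⟨a, hz.trans ht⟩, fun a => a.1⟩, fun w z hz hd hs =>
    ⟨fun a => ⟨a, z, hz, hd.trans ht, hs⟩, fun a => a.1⟩⟩

/-- equivariance -/
theorem Tb_smul (g : G) (b r : ℕ) (P : Set (Vtx H) × Set H) (y : Vtx H) (γ : G) :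
    g * γ * g⁻¹ ∈ Tb G b r (g • P) (g • y) ↔ γ ∈ Tb G b r P y := by
  have e1 : (g * γ * g⁻¹) • g • y = g • γ • y := by
    rw [mul_smul, inv_smul_smul, mul_smul]
  unfold Tb
  rw [Set.mem_ofPred_eq, Set.mem_ofPred_eq, e1, Pool.Agent.H54.CV.ds_smul, Cf_smul, Cf_smul]
  have e2 : (g * γ * g⁻¹) • g • Cf r P y = g • γ • Cf r P y := by
    rw [mul_smul, inv_smul_smul, mul_smul]
  rw [e2, smul_left_cancel_iff]
  have e3 : g • γ • y ∈ (g • P).1 ↔ γ • y ∈ P.1 := by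
    show g • γ • y ∈ g • P.1 ↔ _
    rw [Set.smul_mem_smul_set_iff]
  rw [e3]

/-- inverses of near symmetries -/
theorem Tb_inv {b r : ℕ} {P : Set (Vtx H) × Set H} {y : Vtx H} {γ : G} (hy : y ∈ P.1) (hb : b ≤ r)
    (hγ : γ ∈ Tb G b r P y) : γ⁻¹ ∈ Tb G b (r - b) P y := by
  rw [Tb_iff] at hγ ⊢
  obtain ⟨h1, h2, h3, h4⟩ := hγ
  have d1 : ∀ u, ds y (γ⁻¹ • u) = ds (γ • y) u := by
    intro u
    rw [← Pool.Agent.H54.CV.ds_smul γ y (γ⁻¹ • u), smul_inv_smul]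
  have d2 : ds (γ • y) y ≤ b := by
    rw [Pool.Agent.H54.CV.ds_comm]
    exact h2
  have key : ∀ u, ds y u ≤ r - b → ds y (γ⁻¹ • u) ≤ r := by
    intro u hu
    rw [d1]
    have a2 := Pool.Agent.H54.CV.ds_tri (γ • y) y u
    omega
  have m : ∀ u, ds y (γ⁻¹ • u) ≤ r → (γ⁻¹ • u ∈ P.1 ↔ u ∈ P.1) := by
    intro u hu
    have := h3 _ hu
    rw [smul_inv_smul] at this
    exact this.symm
  have hy' : γ⁻¹ • y ∈ P.1 := (m y (by rw [d1]; omega)).2 hy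
  refine ⟨hy', by rw [d1]; exact d2, fun z hz => m z (key z hz), fun w z hz hd hs => ?_⟩
  have key2 : ∃ u ∈ P.1, ds y u ≤ r ∧ Spt (γ⁻¹ • w) y u := by
    rcases hs.or (γ • y) with h5 | h5
    · refine ⟨γ⁻¹ • y, hy', by rw [d1]; omega, ?_⟩
      rw [← Spt_smul', smul_inv_smul]
      exact h5
    · refine ⟨γ⁻¹ • z, (m z (key z hd)).2 hz, key z hd, ?_⟩
      rw [← Spt_smul', smul_inv_smul]
      exact h5
  obtain ⟨u, hu, hu', hs'⟩ := key2
  have := h4 _ u hu hu' hs'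
  rw [smul_inv_smul] at this
  exact this.symm

/-- products of near symmetries -/
theorem Tb_mul {b b' r r' s : ℕ} {P : Set (Vtx H) × Set H} {y : Vtx H} {γ γ' : G} (hγ : γ ∈ Tb G b r P y)
    (hγ' : γ' ∈ Tb G b' r' P y) (hb : b' ≤ r) (hs : s ≤ r') (hs' : s + b' ≤ r) :
    γ * γ' ∈ Tb G (b + b') s P y := by
  rw [Tb_iff] at hγ hγ' ⊢
  obtain ⟨h1, h2, h3, h4⟩ := hγ
  obtain ⟨k1, k2, k3, k4⟩ := hγ'
  have key : ∀ u, ds y u ≤ s → ds y (γ' • u) ≤ r := by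
    intro u hu
    have a2 := Pool.Agent.H54.CV.ds_tri y (γ' • y) (γ' • u)
    rw [Pool.Agent.H54.CV.ds_smul] at a2
    omega
  refine ⟨?_, ?_, fun z hz => ?_, fun w z hz hd hw => ?_⟩
  · rw [mul_smul]
    exact (h3 _ (by omega)).2 k1
  · rw [mul_smul]
    have a2 := Pool.Agent.H54.CV.ds_tri y (γ • y) (γ • γ' • y)
    rw [Pool.Agent.H54.CV.ds_smul] at a2
    omega
  · rw [mul_smul, h3 _ (key z hz), k3 z (by omega)]
  · rw [mul_smul, ← k4 w z hz (by omega) hw]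
    have hw' : Spt (γ' • w) (γ' • y) (γ' • z) := smul_Spt.2 hw
    rcases hw'.or y with h5 | h5
    · exact h4 _ _ k1 (by omega) h5
    · exact h4 _ _ ((k3 z (by omega)).2 hz) (key z hd) h5

theorem one_mem_Tb (b r : ℕ) {P : Set (Vtx H) × Set H} {y : Vtx H} (hy : y ∈ P.1) : (1 : G) ∈ Tb G b r P y := by
  rw [Tb_iff]
  refine ⟨by rwa [one_smul], ?_, fun z _ => by rw [one_smul], fun w z _ _ _ => by rw [one_smul]⟩
  rw [one_smul, Pool.Agent.H54.CV.ds_self]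
  exact Nat.zero_le _

/-- near symmetries move the half-spaces of the region which separate `y` from near vertices to such half-spaces -/
theorem Tb_wall {b r t : ℕ} {P : Set (Vtx H) × Set H} {y : Vtx H} {γ : G} (hγ : γ ∈ Tb G b r P y) (ht : t ≤ r) {w : H}
    (hw : w ∈ P.2) (hs : ∃ z ∈ P.1, ds y z ≤ t ∧ Spt w y z) :
    γ • w ∈ P.2 ∧ ∃ z ∈ P.1, ds y z ≤ t + b ∧ Spt (γ • w) y z := by
  rw [Tb_iff] at hγ
  obtain ⟨h1, h2, h3, h4⟩ := hγ
  obtain ⟨z, hz, hd, hs⟩ := hs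
  refine ⟨(h4 w z hz (hd.trans ht) hs).2 hw, ?_⟩
  have hs' : Spt (γ • w) (γ • y) (γ • z) := smul_Spt.2 hs
  have a2 := Pool.Agent.H54.CV.ds_tri y (γ • y) (γ • z)
  rw [Pool.Agent.H54.CV.ds_smul] at a2
  rcases hs'.or y with h5 | h5
  · exact ⟨_, h1, by omega, h5⟩
  · exact ⟨_, (h3 z (hd.trans ht)).2 hz, by omega, h5⟩

end

end Pool.Agent.H37.CC
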