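import Pool.Agent.H88.CX.Sp

/-!
# THEOREM CCC, chapter TOPOLOGY, Ct: the space of cube coordinates is contractible
-/

set_option autoImplicit false

namespace Pool.Agent.H88.CX

open unitInterval

variable {H : Type} [PartialOrder H] [Poc H]

/-- only finitely many half-spaces which do not contain the base vertex contain a given one -/
def FinUp (x0 : Set H) : Prop := ∀ h, h ∉ x0 → {k | h ≤ k ∧ k ∉ x0}.Finite

/-- the depth of `h`, not counting the half-spaces in `J` -/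
noncomputable def rnk (x0 J : Set H) (h : H) : ℕ := {k | h ≤ k ∧ k ∉ x0 ∧ k ∉ J}.ncard

theorem rnk_lt {x0 J : Set H} (hf : FinUp x0) {h k : H} (hh : h ∉ x0) (hJ : h ∉ J) (e : h < k) :
    rnk x0 J k < rnk x0 J h := by
  have h1 : {k | h ≤ k ∧ k ∉ x0 ∧ k ∉ J}.Finite := (hf h hh).subset fun a ha => ⟨ha.1, ha.2.1⟩
  refine Set.ncard_lt_ncard ?_ h1
  refine ⟨fun a ha => ⟨e.le.trans ha.1, ha.2⟩, fun a => ?_⟩
  have h2 : h ∈ {k' | k ≤ k' ∧ k' ∉ x0 ∧ k' ∉ J} := a ⟨le_refl h, hh, hJ⟩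
  exact not_le_of_gt e h2.1

open Classical in
/-- the heights of the homotopy -/
noncomputable def hts (x0 J : Set H) (t : I) (h : H) : I := if h ∈ J then 1 else ramp (rnk x0 J h) t

theorem hts_of_mem (x0 : Set H) {J : Set H} (t : I) {h : H} (e : h ∈ J) : hts x0 J t h = 1 := if_pos e

theorem hts_of_notMem (x0 : Set H) {J : Set H} (t : I) {h : H} (e : h ∉ J) :
    hts x0 J t h = ramp (rnk x0 J h) t := if_neg e

theorem hts_adm {x0 J : Set H} (hf : FinUp x0) (hJ : ∀ h k, h ∈ J → h ≤ k → k ∉ x0 → k ∈ J) (t : I) :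
    Xh.Adm x0 (hts x0 J t) := by
  intro h k hh hk e
  by_cases h1 : k ∈ J
  · right
    exact hts_of_mem x0 t h1
  · have h2 : h ∉ J := fun a => h1 (hJ h k a e.le hk)
    rw [hts_of_notMem x0 t h1, hts_of_notMem x0 t h2]
    exact ramp_lt (rnk_lt hf hh h2 e) t

theorem continuous_hts (x0 J : Set H) (h : H) : Continuous fun t => hts x0 J t h := by
  by_cases e : h ∈ J
  · simp only [hts_of_mem x0 _ e]
    exact continuous_const
  · simp only [hts_of_notMem x0 _ e]
    exact continuous_ramp _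

theorem hts_one (x0 J : Set H) (h : H) : hts x0 J 1 h = 1 := by
  by_cases e : h ∈ J
  · exact hts_of_mem x0 1 e
  · rw [hts_of_notMem x0 1 e, ramp_one]

/-- the homotopy -/
noncomputable def hmt {x0 J : Set H} (hx : IsVertex x0) (hf : FinUp x0)
    (hJ : ∀ h k, h ∈ J → h ≤ k → k ∉ x0 → k ∈ J) : C(I × Xh H, Xh H) where
  toFun q := Xh.cut hx (hts x0 J q.1) (hts_adm hf hJ q.1) q.2
  continuous_toFun := Xh.continuous_cut hx (fun t => hts x0 J t) (fun t => hts_adm hf hJ t)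
    (fun h => continuous_hts x0 J h)

theorem hmt_apply {x0 J : Set H} (hx : IsVertex x0) (hf : FinUp x0)
    (hJ : ∀ h k, h ∈ J → h ≤ k → k ∉ x0 → k ∈ J) (t : I) (ψ : Xh H) (h : H) :
    hmt hx hf hJ (t, ψ) h = Xh.cutv x0 (hts x0 J t) ψ h := rfl

theorem min_one' (a : I) : min a 1 = a := min_eq_left unitInterval.le_one'

theorem cutv_eq_self {x0 : Set H} (u : H → I) (ψ : Xh H) {h : H} (h1 : h ∉ x0 → u h = 1)
    (h2 : h ∈ x0 → u (st h) = 1) : Xh.cutv x0 u ψ h = ψ h := by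
  by_cases e : h ∈ x0
  · rw [Xh.cutv_of_mem _ _ e, h2 e, min_one', ψ.st_eq, symm_symm]
  · rw [Xh.cutv_of_notMem _ _ e, h1 e, min_one']

theorem hmt_one {x0 J : Set H} (hx : IsVertex x0) (hf : FinUp x0)
    (hJ : ∀ h k, h ∈ J → h ≤ k → k ∉ x0 → k ∈ J) (ψ : Xh H) : hmt hx hf hJ (1, ψ) = ψ :=
  Xh.ext fun h => cutv_eq_self _ ψ (fun _ => hts_one x0 J h) fun _ => hts_one x0 J (st h)

/-- the coordinates in `J` do not move -/
theorem hmt_of_mem {x0 J : Set H} (hx : IsVertex x0) (hf : FinUp x0)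
    (hJ : ∀ h k, h ∈ J → h ≤ k → k ∉ x0 → k ∈ J) (t : I) (ψ : Xh H) {h : H} (h1 : h ∉ x0 → h ∈ J)
    (h2 : h ∈ x0 → st h ∈ J) : hmt hx hf hJ (t, ψ) h = ψ h :=
  cutv_eq_self _ ψ (fun a => hts_of_mem x0 t (h1 a)) fun a => hts_of_mem x0 t (h2 a)

/-- at time zero the other coordinates vanish -/
theorem hmt_zero {x0 J : Set H} (hx : IsVertex x0) (hf : FinUp x0)
    (hJ : ∀ h k, h ∈ J → h ≤ k → k ∉ x0 → k ∈ J) (ψ : Xh H) {h : H} (h1 : h ∉ x0) (h2 : h ∉ J) :
    hmt hx hf hJ (0, ψ) h = 0 := by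
  show Xh.cutv x0 (hts x0 J 0) ψ h = 0
  rw [Xh.cutv_of_notMem _ _ h1, hts_of_notMem x0 0 h2, ramp_zero, Xh.min_zero']

open Classical in
/-- the point of the space given by the base vertex -/
noncomputable def vtx {x0 : Set H} (hx : IsVertex x0) : Xh H where
  f h := if h ∈ x0 then 1 else 0
  st_eq' h := by
    by_cases e : h ∈ x0
    · rw [if_neg (hx.st_notMem.mpr e), if_pos e, symm_one]
    · rw [if_pos ((hx.st_mem h).mpr e), if_neg e, symm_zero]
  lt_or' {h k} e := by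
    by_cases e' : h ∈ x0
    · right
      exact if_pos (hx.up e' e.le)
    · left
      exact if_neg e'

theorem vtx_of_mem {x0 : Set H} (hx : IsVertex x0) {h : H} (e : h ∈ x0) : vtx hx h = 1 := if_pos e

theorem vtx_of_notMem {x0 : Set H} (hx : IsVertex x0) {h : H} (e : h ∉ x0) : vtx hx h = 0 := if_neg e

/-- two points which agree on the half-spaces which do not contain the base vertex are equal -/
theorem ext_of {x0 : Set H} (hx : IsVertex x0) {ψ φ : Xh H} (h : ∀ h, h ∉ x0 → ψ h = φ h) : ψ = φ := by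
  refine Xh.ext fun k => ?_
  by_cases e : k ∈ x0
  · have h1 := h (st k) (hx.st_notMem.mpr e)
    rw [ψ.st_eq, φ.st_eq] at h1
    rw [← symm_symm (ψ k), h1, symm_symm]
  · exact h k e

theorem contractible {x0 : Set H} (hx : IsVertex x0) (hf : FinUp x0) : ContractibleSpace (Xh H) := by
  rw [contractible_iff_id_nullhomotopic]
  have hJ : ∀ h k, h ∈ (∅ : Set H) → h ≤ k → k ∉ x0 → k ∈ (∅ : Set H) := fun _ _ a => a.elim
  refine ⟨vtx hx, ContinuousMap.Homotopic.symm ⟨{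
    toFun := fun q => hmt hx hf hJ q
    continuous_toFun := (hmt hx hf hJ).continuous
    map_zero_left := fun ψ => ?_
    map_one_left := fun ψ => ?_ }⟩⟩
  · show hmt hx hf hJ (0, ψ) = vtx hx
    refine ext_of hx fun h hh => ?_
    rw [hmt_zero hx hf hJ ψ hh fun a => a, vtx_of_notMem hx hh]
  · show hmt hx hf hJ (1, ψ) = ψ
    exact hmt_one hx hf hJ ψ

end Pool.Agent.H88.CX
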