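import Pool.Agent.H88.CX.Td
import Pool.Agent.H37.CC.Defs
import Pool.Agent.H76.VC.Cen

/-!
# THEOREM CCC, chapter TOPOLOGY, Br: the results of the chapter for the definitions of `H37/CC/Defs`
-/

set_option autoImplicit false

namespace Pool.Agent.H37.CC

open unitInterval Pool.Agent.H76.GT
open Pool.Agent.H88.CX (Xh)

section

variable {H : Type} [PartialOrder H]

instance toPoc88 [Poc H] : Pool.Agent.H88.CX.Poc H where
  st := Poc.st
  st_st := Poc.st_st
  st_le := Poc.st_le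
  ne_st h e := Poc.not_le h (le_of_eq e)

theorem IsVertex.to88 [Poc H] {x : Set H} (hx : IsVertex x) : Pool.Agent.H88.CX.IsVertex x :=
  ⟨hx.one, fun h1 h2 => hx.up h1 h2⟩

theorem crs_iff88 [Poc H] {h k : H} : Pool.Agent.H88.CX.Crs h k ↔ Crs h k := by
  constructor
  · rintro ⟨h1, h2, h3, h4⟩
    exact ⟨h1, h2, h3, fun h5 => h4 ((Pool.Agent.H88.CX.st_le_comm (h := h) (k := k)).2 h5)⟩
  · rintro ⟨h1, h2, h3, h4⟩
    exact ⟨h1, h2, h3, fun h5 => h4 ((Pool.Agent.H88.CX.st_le_comm (h := h) (k := k)).1 h5)⟩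

theorem Dim.to88 [Poc H] {n : ℕ} (hd : Dim H n) : Pool.Agent.H88.CX.Dim H n :=
  fun A hA => hd A fun h hh k hk e => crs_iff88.1 (hA h hh k hk e)

instance toActPoc88 {G : Type} [Group G] [MulAction G H] [Poc H] [PAct G H] : Pool.Agent.H88.CX.ActPoc G H where
  smul_le g h k e := (PAct.smul_le g h k).2 e
  smul_st g h := PAct.smul_st g h

/-- two fractional half-spaces are equal, complementary or cross -/
theorem Xh.crs_of_frac' [Poc H] (ψ : Xh H) {h k : H} (h0 : ψ h ≠ 0) (h1 : ψ h ≠ 1) (k0 : ψ k ≠ 0) (k1 : ψ k ≠ 1)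
    (e : h ≠ k) (e' : h ≠ st k) : Crs h k :=
  crs_iff88.1 (Pool.Agent.H88.CX.Xh.crs_of_frac ψ h0 h1 k0 k1 e e')

theorem Xh.st_eq' [Poc H] (ψ : Xh H) (h : H) : ψ (st h) = σ (ψ h) := ψ.st_eq' h

theorem Xh.lt_or' [Poc H] (ψ : Xh H) {h k : H} (e : h < k) : ψ h = 0 ∨ ψ k = 1 := ψ.lt_or' e

theorem finUp88 [Bas H] : Pool.Agent.H88.CX.FinUp (Bas.o : Set H) := fun h _ => Bas.fin_up h

instance contractible88 [Bas H] : ContractibleSpace (Xh H) :=
  Pool.Agent.H88.CX.contractible Bas.vtx.to88 finUp88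

theorem topDom88 [Bas H] {n : ℕ} (hd : Dim H n) : TopDom n (Xh H) :=
  Pool.Agent.H88.CX.topDom Bas.vtx.to88 finUp88 hd.to88

/-- there are only countably many half-spaces -/
theorem countable_H (G : Type) [Group G] [Countable G] [Bas H] [MulAction G H] [BAct G H] : Countable H := by
  have h1 : (⋃ q : G × G, ((q.1 • (bs : Vtx H)).U \ (q.2 • (bs : Vtx H)).U) : Set H).Countable :=
    Set.countable_iUnion fun q => (diff_fin (q.2 • (bs : Vtx H)) (q.1 • (bs : Vtx H))).countable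
  refine Set.countable_univ_iff.1 (h1.mono fun h _ => ?_)
  obtain ⟨g, hg⟩ := BAct.sep (G := G) h
  obtain ⟨g', hg'⟩ := BAct.sep (G := G) (st h)
  refine Set.mem_iUnion.2 ⟨(g, g'), hg, fun h2 => ?_⟩
  rw [smul_st] at hg'
  exact (Bas.vtx.one _).1 hg' h2

/-- the transfer criterion for the space of cube coordinates -/
theorem transfer88 {C : (G : Type) → [Group G] → Prop} (hT : Transfer C) {G : Type} [Group G] [Bas H] [MulAction G H]
    [BAct G H] (hfg : Group.FG G) {n N : ℕ} (hn : n ≤ N) (hd : Dim H n)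
    (hcov : ∀ S : Set G, S.Finite → ∃ U : Set (Set (G × Xh H)), IsCover C N S U) : C G := by
  haveI : Countable G := Pool.Agent.H76.VC.countable_of_fg hfg
  haveI := countable_H (H := H) G
  exact transfer_top hT hn hfg (topDom88 hd) hcov

end

end Pool.Agent.H37.CC
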