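import Pool.Agent.H54.CV.V2

/-!
# THEOREM CCA: fixed vertices of groups with bounded orbits (FV), gates (GT)
-/

set_option autoImplicit false

namespace Pool.Agent.H88.CX.Fv

open Pool.Agent.H37.CC Pool.Agent.H54.CV
open scoped Pointwise

section

variable {H : Type} [PartialOrder H]

/-- the lengths of the chains in `T` above `h` -/
def Lns (T : Set H) (h : H) : Set ℕ :=
  {m | ∃ t : Finset H, (∀ k ∈ t, k ∈ T) ∧ IsChain (· ≤ ·) (t : Set H) ∧ (∀ k ∈ t, h < k) ∧ t.card = m}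

/-- the maximal length of a chain in `T` above `h` -/
noncomputable def hup (T : Set H) (h : H) : ℕ := sSup (Lns T h)

/-- chains in `T` have at most `M` elements -/
def Chn (T : Set H) (M : ℕ) : Prop := ∀ t : Finset H, (∀ k ∈ t, k ∈ T) → IsChain (· ≤ ·) (t : Set H) → t.card ≤ M

theorem bdd_lns {T : Set H} {M : ℕ} (hT : Chn T M) (h : H) : BddAbove (Lns T h) := by
  refine ⟨M, ?_⟩
  rintro m ⟨t, h1, h2, _, rfl⟩
  exact hT t h1 h2

theorem lns_nonempty (T : Set H) (h : H) : (Lns T h).Nonempty :=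
  ⟨0, ∅, fun k hk => absurd hk (Finset.notMem_empty k), by simp, fun k hk => absurd hk (Finset.notMem_empty k), rfl⟩

theorem hup_lt {T : Set H} {M : ℕ} (hT : Chn T M) {h k : H} (hk : k ∈ T) (e : h < k) : hup T k < hup T h := by
  classical
  obtain ⟨t, h1, h2, h3, h4⟩ := Nat.sSup_mem (lns_nonempty T k) (bdd_lns hT k)
  have h5 : k ∉ t := fun a => lt_irrefl k (h3 k a)
  have h6 : t.card + 1 ∈ Lns T h := by
    refine ⟨insert k t, fun a ha => ?_, ?_, fun a ha => ?_, ?_⟩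
    · rcases Finset.mem_insert.1 ha with rfl | ha
      · exact hk
      · exact h1 a ha
    · rw [Finset.coe_insert]
      refine h2.insert fun b hb _ => Or.inl (h3 b hb).le
    · rcases Finset.mem_insert.1 ha with rfl | ha
      · exact e
      · exact e.trans (h3 a ha)
    · rw [Finset.card_insert_of_notMem h5]
  have h7 := le_csSup (bdd_lns hT h) h6
  have h8 : hup T k = t.card := h4.symm
  rw [h8]
  exact h7

end

section

variable {H : Type} [PartialOrder H] [Bas H]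

/-- the half-spaces which separate two vertices of `O` -/
def Sp (O : Set (Vtx H)) : Set H := {h | (∃ p ∈ O, h ∈ p.U) ∧ ∃ q ∈ O, h ∉ q.U}

theorem st_mem_Sp {O : Set (Vtx H)} {h : H} : st h ∈ Sp O ↔ h ∈ Sp O := by
  constructor
  · rintro ⟨⟨p, hp, h1⟩, ⟨q, hq, h2⟩⟩
    exact ⟨⟨q, hq, by rwa [q.st_mem, not_not] at h2⟩, ⟨p, hp, p.st_mem.1 h1⟩⟩
  · rintro ⟨⟨p, hp, h1⟩, ⟨q, hq, h2⟩⟩
    exact ⟨⟨q, hq, q.st_mem.2 h2⟩, ⟨p, hp, by rw [p.st_mem, not_not]; exact h1⟩⟩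

theorem chn_Sp {O : Set (Vtx H)} {M : ℕ} (hO : ∀ p ∈ O, ∀ q ∈ O, ds p q ≤ M) : Chn (Sp O) M := by
  intro t ht hc
  rcases t.eq_empty_or_nonempty with h0 | hne
  · rw [h0]
    exact Nat.zero_le _
  · obtain ⟨a, ha, hamin⟩ := t.exists_minimal hne
    obtain ⟨b, hb, hbmax⟩ := t.exists_maximal hne
    have hlow : ∀ k ∈ t, a ≤ k := by
      intro k hk
      rcases hc.total ha hk with h | h
      · exact h
      · exact hamin hk h
    have hupp : ∀ k ∈ t, k ≤ b := by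
      intro k hk
      rcases hc.total hk hb with h | h
      · exact h
      · exact hbmax hk h
    obtain ⟨p, hp, h1⟩ := (ht a ha).1
    obtain ⟨q, hq, h2⟩ := (ht b hb).2
    have h3 : (t : Set H) ⊆ p.U \ q.U := by
      intro k hk
      exact ⟨p.up h1 (hlow k hk), fun a => h2 (q.up a (hupp k hk))⟩
    have h4 := Set.ncard_le_ncard h3 (diff_fin q p)
    rw [Set.ncard_coe_finset] at h4
    exact h4.trans (hO q hq p hp)

/-- the central vertex of a bounded set of vertices -/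
def ctr (O : Set (Vtx H)) (x : Vtx H) : Set H :=
  {h | (∀ p ∈ O, h ∈ p.U) ∨ (h ∈ Sp O ∧ (hup (Sp O) h < hup (Sp O) (st h) ∨
    (hup (Sp O) h = hup (Sp O) (st h) ∧ h ∈ x.U)))}

/-- the half-spaces in the middle -/
def mid (O : Set (Vtx H)) : Set H := {h | h ∈ Sp O ∧ hup (Sp O) h = hup (Sp O) (st h)}

variable {O : Set (Vtx H)} {x : Vtx H} {M : ℕ}

theorem st_mem_mid {h : H} : st h ∈ mid O ↔ h ∈ mid O := by
  unfold mid
  rw [Set.mem_ofPred_eq, Set.mem_ofPred_eq, st_mem_Sp, st_st, eq_comm]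

theorem st_lt_st {h k : H} (e : h < k) : st k < st h :=
  lt_of_le_of_ne (st_le e.le) fun a => e.ne (st_inj a).symm

theorem mid_not_lt (hO : ∀ p ∈ O, ∀ q ∈ O, ds p q ≤ M) {h k : H} (hh : h ∈ mid O) (hk : k ∈ mid O) : ¬ h < k := by
  intro e
  have h1 := hup_lt (chn_Sp hO) hk.1 e
  have h2 := hup_lt (chn_Sp hO) (st_mem_Sp.2 hh.1) (st_lt_st e)
  have h3 := hh.2
  have h4 := hk.2
  omega

theorem mid_crs (hO : ∀ p ∈ O, ∀ q ∈ O, ds p q ≤ M) {h k : H} (hh : h ∈ mid O) (hk : k ∈ mid O) (hx : h ∈ x.U)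
    (kx : k ∈ x.U) (hne : h ≠ k) : Crs h k := by
  refine ⟨fun a => mid_not_lt hO hh hk (lt_of_le_of_ne a hne), fun a => mid_not_lt hO hk hh (lt_of_le_of_ne a hne.symm),
    fun a => x.st_mem.1 (x.up hx a) kx, fun a => ?_⟩
  have h1 : st k ≠ h := fun b => x.st_mem.1 (b ▸ hx) kx
  exact mid_not_lt hO (st_mem_mid.2 hk) hh (lt_of_le_of_ne a h1)

theorem mid_fin {n : ℕ} (hd : Dim H n) (hO : ∀ p ∈ O, ∀ q ∈ O, ds p q ≤ M) (x : Vtx H) :
    (mid O).Finite ∧ (mid O).ncard ≤ 2 * n := by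
  have h1 : (mid O ∩ x.U).encard ≤ n := by
    refine encard_le_of_finset fun F hF => hd F fun h hh k hk hne => ?_
    exact mid_crs hO (hF (Finset.mem_coe.2 hh)).1 (hF (Finset.mem_coe.2 hk)).1 (hF (Finset.mem_coe.2 hh)).2
      (hF (Finset.mem_coe.2 hk)).2 hne
  have h2 : (mid O ∩ x.U).Finite := Set.finite_of_encard_le_coe h1
  have h3 : (mid O ∩ x.U).ncard ≤ n := by
    rw [← h2.cast_ncard_eq] at h1
    exact_mod_cast h1
  have h4 : mid O ⊆ (mid O ∩ x.U) ∪ st '' (mid O ∩ x.U) := by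
    intro h hh
    by_cases hx : h ∈ x.U
    · exact Or.inl ⟨hh, hx⟩
    · exact Or.inr ⟨st h, ⟨st_mem_mid.2 hh, x.st_mem.2 hx⟩, st_st h⟩
  have h5 : ((mid O ∩ x.U) ∪ st '' (mid O ∩ x.U)).Finite := h2.union (h2.image _)
  refine ⟨h5.subset h4, ?_⟩
  calc (mid O).ncard ≤ ((mid O ∩ x.U) ∪ st '' (mid O ∩ x.U)).ncard := Set.ncard_le_ncard h4 h5
    _ ≤ (mid O ∩ x.U).ncard + (st '' (mid O ∩ x.U)).ncard := Set.ncard_union_le _ _
    _ ≤ (mid O ∩ x.U).ncard + (mid O ∩ x.U).ncard := Nat.add_le_add_left (Set.ncard_image_le h2) _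
    _ ≤ 2 * n := by omega

theorem ctr_vertex (hO : ∀ p ∈ O, ∀ q ∈ O, ds p q ≤ M) (hx : x ∈ O) : IsVertex (ctr O x) := by
  have tri : ∀ h, (∀ p ∈ O, h ∈ p.U) ∨ (∀ p ∈ O, h ∉ p.U) ∨ h ∈ Sp O := by
    intro h
    by_cases h1 : ∀ p ∈ O, h ∈ p.U
    · exact Or.inl h1
    by_cases h2 : ∀ p ∈ O, h ∉ p.U
    · exact Or.inr (Or.inl h2)
    push Not at h1 h2
    exact Or.inr (Or.inr ⟨h2, h1⟩)
  refine ⟨fun h => ?_, fun {h k} hh hle => ?_⟩
  · rcases tri h with h1 | h1 | h1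
    · constructor
      · rintro (h2 | h2)
        · exact absurd (h1 x hx) (x.st_mem.1 (h2 x hx))
        · obtain ⟨⟨⟨p, hp, h3⟩, _⟩, _⟩ := h2
          exact absurd (h1 p hp) (p.st_mem.1 h3)
      · intro h2
        exact absurd (Or.inl h1) h2
    · constructor
      · rintro _ (h2 | h2)
        · exact h1 x hx (h2 x hx)
        · obtain ⟨⟨⟨p, hp, h3⟩, _⟩, _⟩ := h2
          exact h1 p hp h3
      · intro _
        exact Or.inl fun p hp => p.st_mem.2 (h1 p hp)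
    · have a1 : ∀ k, k ∈ Sp O → ¬ ∀ p ∈ O, k ∈ p.U := by
        rintro k ⟨_, q, hq, h2⟩ h3
        exact h2 (h3 q hq)
      have a2 : h ∈ ctr O x ↔ (hup (Sp O) h < hup (Sp O) (st h) ∨ (hup (Sp O) h = hup (Sp O) (st h) ∧ h ∈ x.U)) := by
        constructor
        · rintro (h2 | h2)
          · exact absurd h2 (a1 h h1)
          · exact h2.2
        · intro h2
          exact Or.inr ⟨h1, h2⟩
      have a3 : st h ∈ ctr O x ↔ (hup (Sp O) (st h) < hup (Sp O) h ∨ (hup (Sp O) (st h) = hup (Sp O) h ∧ h ∉ x.U)) := by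
        constructor
        · rintro (h2 | h2)
          · exact absurd h2 (a1 _ (st_mem_Sp.2 h1))
          · have := h2.2
            rw [st_st, x.st_mem] at this
            exact this
        · intro h2
          refine Or.inr ⟨st_mem_Sp.2 h1, ?_⟩
          rw [st_st, x.st_mem]
          exact h2
      rw [a2, a3]
      constructor
      · rintro (h2 | ⟨h2, h3⟩) (h4 | ⟨h4, h5⟩)
        · omega
        · omega
        · omega
        · exact h3 h5
      · intro h2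
        rw [not_or, not_and] at h2
        rcases lt_trichotomy (hup (Sp O) (st h)) (hup (Sp O) h) with h3 | h3 | h3
        · exact Or.inl h3
        · exact Or.inr ⟨h3, h2.2 h3.symm⟩
        · exact absurd h3 h2.1
  · rcases eq_or_lt_of_le hle with rfl | hlt
    · exact hh
    rcases hh with h1 | ⟨h1, h2⟩
    · exact Or.inl fun p hp => p.up (h1 p hp) hle
    · by_cases h3 : ∀ p ∈ O, k ∈ p.U
      · exact Or.inl h3
      · push Not at h3
        obtain ⟨p, hp, h4⟩ := h1.1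
        have hk : k ∈ Sp O := ⟨⟨p, hp, p.up h4 hle⟩, h3⟩
        have h5 := hup_lt (chn_Sp hO) hk hlt
        have h6 := hup_lt (chn_Sp hO) (st_mem_Sp.2 h1) (st_lt_st hlt)
        refine Or.inr ⟨hk, Or.inl ?_⟩
        rcases h2 with h2 | ⟨h2, _⟩ <;> omega

theorem ctr_diff {n : ℕ} (hd : Dim H n) (hO : ∀ p ∈ O, ∀ q ∈ O, ds p q ≤ M) (hx : x ∈ O) :
    (ctr O x \ x.U).encard ≤ (n * M : ℕ) := by
  have hv := ctr_vertex hO hx
  refine encard_le_of_finset fun F hF => ?_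
  have hF' : ∀ h ∈ F, h ∈ ctr O x ∧ h ∉ x.U := fun h hh => hF (Finset.mem_coe.2 hh)
  refine card_le_of_chain hd (fun h hh k hk => ⟨fun a => ?_, fun a => ?_⟩) fun u hu hc => ?_
  · exact (hv.one k).1 (hv.up (hF' h hh).1 a) (hF' k hk).1
  · exact (hF' k hk).2 (x.up (x.st_mem.2 (hF' h hh).2) a)
  · refine chn_Sp hO u (fun k hk => ?_) hc
    obtain ⟨h1, h2⟩ := hF' k (hu hk)
    rcases h1 with h1 | h1
    · exact absurd (h1 x hx) h2
    · exact h1.1

/-- the central vertex -/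
def ctrV {n : ℕ} (hd : Dim H n) (hO : ∀ p ∈ O, ∀ q ∈ O, ds p q ≤ M) (hx : x ∈ O) : Vtx H where
  U := ctr O x
  isV := ctr_vertex hO hx
  fin := by
    refine ((Set.finite_of_encard_le_coe (ctr_diff hd hO hx)).union x.fin).subset ?_
    rintro h ⟨h1, h2⟩
    by_cases h3 : h ∈ x.U
    · exact Or.inr ⟨h3, h2⟩
    · exact Or.inl ⟨h1, h3⟩

theorem ds_ctrV {n : ℕ} (hd : Dim H n) (hO : ∀ p ∈ O, ∀ q ∈ O, ds p q ≤ M) (hx : x ∈ O) :
    ds x (ctrV hd hO hx) ≤ n * M := by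
  have h1 := ctr_diff hd hO hx
  have h2 := Set.finite_of_encard_le_coe h1
  rw [← h2.cast_ncard_eq] at h1
  exact_mod_cast h1

end

section

variable {G H : Type} [Group G] [PartialOrder H] [Bas H] [MulAction G H] [BAct G H]

theorem smul_mem_Sp {O : Set (Vtx H)} {g : G} (hg : ∀ p ∈ O, g • p ∈ O) {h : H} (hh : h ∈ Sp O) : g • h ∈ Sp O := by
  obtain ⟨⟨p, hp, h1⟩, ⟨q, hq, h2⟩⟩ := hh
  exact ⟨⟨g • p, hg p hp, smul_mem_smul.2 h1⟩, ⟨g • q, hg q hq, fun a => h2 (smul_mem_smul.1 a)⟩⟩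

theorem hup_smul_le {O : Set (Vtx H)} {M : ℕ} (hO : ∀ p ∈ O, ∀ q ∈ O, ds p q ≤ M) {g : G} (hg : ∀ p ∈ O, g • p ∈ O)
    (h : H) : hup (Sp O) h ≤ hup (Sp O) (g • h) := by
  classical
  refine csSup_le (lns_nonempty _ h) ?_
  rintro m ⟨t, h1, h2, h3, rfl⟩
  refine le_csSup (bdd_lns (chn_Sp hO) _) ⟨t.image (g • ·), ?_, ?_, ?_, ?_⟩
  · intro k hk
    obtain ⟨a, ha, rfl⟩ := Finset.mem_image.1 hk
    exact smul_mem_Sp hg (h1 a ha)
  · intro k hk k' hk' hne
    obtain ⟨a, ha, rfl⟩ := Finset.mem_image.1 (Finset.mem_coe.1 hk)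
    obtain ⟨a', ha', rfl⟩ := Finset.mem_image.1 (Finset.mem_coe.1 hk')
    rcases h2.total (Finset.mem_coe.2 ha) (Finset.mem_coe.2 ha') with h4 | h4
    · exact Or.inl (smul_le.2 h4)
    · exact Or.inr (smul_le.2 h4)
  · intro k hk
    obtain ⟨a, ha, rfl⟩ := Finset.mem_image.1 hk
    exact smul_lt.2 (h3 a ha)
  · exact Finset.card_image_of_injective _ (MulAction.injective g)

theorem hup_smul {O : Set (Vtx H)} {M : ℕ} (hO : ∀ p ∈ O, ∀ q ∈ O, ds p q ≤ M) {g : G} (hg : ∀ p ∈ O, g • p ∈ O)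
    (hg' : ∀ p ∈ O, g⁻¹ • p ∈ O) (h : H) : hup (Sp O) (g • h) = hup (Sp O) h := by
  refine le_antisymm ?_ (hup_smul_le hO hg h)
  have := hup_smul_le hO hg' (g • h)
  rwa [inv_smul_smul] at this

theorem smul_mem_mid {O : Set (Vtx H)} {M : ℕ} (hO : ∀ p ∈ O, ∀ q ∈ O, ds p q ≤ M) {g : G} (hg : ∀ p ∈ O, g • p ∈ O)
    (hg' : ∀ p ∈ O, g⁻¹ • p ∈ O) {h : H} (hh : h ∈ mid O) : g • h ∈ mid O := by
  refine ⟨smul_mem_Sp hg hh.1, ?_⟩
  rw [← smul_st, hup_smul hO hg hg', hup_smul hO hg hg']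
  exact hh.2

theorem smul_ctr {O : Set (Vtx H)} {x : Vtx H} {M : ℕ} (hO : ∀ p ∈ O, ∀ q ∈ O, ds p q ≤ M) {g : G}
    (hg : ∀ p ∈ O, g • p ∈ O) (hg' : ∀ p ∈ O, g⁻¹ • p ∈ O) (hm : ∀ h ∈ mid O, g • h = h) {h : H}
    (hh : h ∈ ctr O x) : g • h ∈ ctr O x := by
  rcases hh with h1 | ⟨h1, h2⟩
  · refine Or.inl fun p hp => ?_
    have := h1 _ (hg' p hp)
    rwa [mem_smul, inv_inv] at this
  · by_cases h3 : hup (Sp O) h = hup (Sp O) (st h)
    · rw [hm h ⟨h1, h3⟩]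
      exact Or.inr ⟨h1, h2⟩
    · refine Or.inr ⟨smul_mem_Sp hg h1, Or.inl ?_⟩
      rw [← smul_st, hup_smul hO hg hg', hup_smul hO hg hg']
      rcases h2 with h2 | h2
      · exact h2
      · exact absurd h2.1 h3

theorem smul_ctrV {O : Set (Vtx H)} {x : Vtx H} {M n : ℕ} (hd : Dim H n) (hO : ∀ p ∈ O, ∀ q ∈ O, ds p q ≤ M)
    (hx : x ∈ O) {g : G} (hg : ∀ p ∈ O, g • p ∈ O) (hg' : ∀ p ∈ O, g⁻¹ • p ∈ O) (hm : ∀ h ∈ mid O, g • h = h) :
    g • ctrV hd hO hx = ctrV hd hO hx := by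
  refine Vtx.ext' fun h => ?_
  rw [mem_smul]
  constructor
  · intro h1
    have := smul_ctr hO hg hg' hm h1
    rwa [smul_inv_smul] at this
  · intro h1
    refine smul_ctr (x := x) hO hg' (by rwa [inv_inv]) (fun k hk => ?_) h1
    rw [inv_smul_eq_iff]
    exact (hm k hk).symm

/-- **(FV)** a subgroup with bounded orbits has a subgroup of index at most `(2 n)!` which fixes a vertex -/
theorem fv {n M : ℕ} (hd : Dim H n) (B : Subgroup G) {x : Vtx H} (hB : ∀ b ∈ B, ds x (b • x) ≤ M) :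
    ∃ B' : Subgroup G, B' ≤ B ∧ B'.relIndex B ≠ 0 ∧ B'.relIndex B ≤ (2 * n).factorial ∧
      ∃ y : Vtx H, ds x y ≤ n * M ∧ ∀ b ∈ B', b • y = y := by
  classical
  let O : Set (Vtx H) := {p | ∃ b ∈ B, b • x = p}
  have hx : x ∈ O := ⟨1, B.one_mem, one_smul G x⟩
  have hO : ∀ p ∈ O, ∀ q ∈ O, ds p q ≤ M := by
    rintro _ ⟨b, hb, rfl⟩ _ ⟨b', hb', rfl⟩
    have h1 := hB (b⁻¹ * b') (B.mul_mem (B.inv_mem hb) hb')
    rwa [← ds_smul b, mul_smul, smul_inv_smul] at h1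
  have hg : ∀ g ∈ B, ∀ p ∈ O, g • p ∈ O := by
    rintro g hg _ ⟨b, hb, rfl⟩
    exact ⟨g * b, B.mul_mem hg hb, mul_smul g b x⟩
  obtain ⟨hmf, hmc⟩ := mid_fin hd hO x
  letI : Finite (mid O) := hmf
  letI : MulAction B (mid O) :=
    { smul := fun g h => ⟨(g : G) • h.1, smul_mem_mid hO (hg g g.2) (hg _ (B.inv_mem g.2)) h.2⟩
      one_smul := fun h => Subtype.ext (one_smul G h.1)
      mul_smul := fun g g' h => Subtype.ext (mul_smul (g : G) (g' : G) h.1) }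
  let φ : B →* Equiv.Perm (mid O) := MulAction.toPermHom B (mid O)
  have hker : φ.ker.index ≤ (2 * n).factorial ∧ φ.ker.index ≠ 0 := by
    have h1 : φ.ker.index = Nat.card φ.range := Subgroup.index_ker φ
    have h2 : Nat.card φ.range ≤ Nat.card (Equiv.Perm (mid O)) := Nat.card_le_card_of_injective _ Subtype.val_injective
    have h3 : Nat.card (Equiv.Perm (mid O)) = (Nat.card (mid O)).factorial := Nat.card_perm
    have h4 : Nat.card (mid O) = (mid O).ncard := rfl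
    refine ⟨?_, ?_⟩
    · rw [h1]
      refine h2.trans ?_
      rw [h3, h4]
      exact Nat.factorial_le hmc
    · rw [h1]
      exact Nat.card_pos.ne'
  refine ⟨φ.ker.map B.subtype, Subgroup.map_subtype_le _, ?_, ?_, ctrV hd hO hx, ds_ctrV hd hO hx, ?_⟩
  · rw [Subgroup.relIndex, Subgroup.subgroupOf, Subgroup.comap_map_eq_self_of_injective B.subtype_injective]
    exact hker.2
  · rw [Subgroup.relIndex, Subgroup.subgroupOf, Subgroup.comap_map_eq_self_of_injective B.subtype_injective]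
    exact hker.1
  · rintro _ ⟨b, hb, rfl⟩
    refine smul_ctrV hd hO hx (hg b b.2) (hg _ (B.inv_mem b.2)) fun h hh => ?_
    have h1 : φ b = 1 := hb
    have h2 : (φ b) ⟨h, hh⟩ = ⟨h, hh⟩ := by
      rw [h1]
      rfl
    exact congrArg Subtype.val h2

/-- **(GT)** if `B` fixes the vertex `y` and the translates of `w` are pairwise equal or crossing then `B` fixes a vertex at
distance at least the depth of `w` -/
theorem gt {n : ℕ} (hd : Dim H n) (B : Subgroup G) {y : Vtx H} (hy : ∀ b ∈ B, b • y = y) {w : H} (hw : w ∉ y.U)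
    (hc : ∀ b ∈ B, b • w = w ∨ Crs w (b • w)) : ∃ z : Vtx H, (∀ b ∈ B, b • z = z) ∧ dep y w ≤ ds y z := by
  classical
  have hc2 : ∀ a ∈ B, ∀ b ∈ B, a • w = b • w ∨ Crs (a • w) (b • w) := by
    intro a ha b hb
    rcases hc (a⁻¹ * b) (B.mul_mem (B.inv_mem ha) hb) with h1 | h1
    · left
      rw [mul_smul, inv_smul_eq_iff] at h1
      exact h1.symm
    · right
      have h2 := (crs_smul a).2 h1
      rwa [mul_smul, smul_inv_smul] at h2
  have hmem : ∀ b ∈ B, ∀ k, b • k ∈ y.U ↔ k ∈ y.U := by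
    intro b hb k
    have h1 : b • k ∈ (b • y).U ↔ k ∈ y.U := smul_mem_smul
    rwa [hy b hb] at h1
  -- the orbit is finite
  have horb : {h | ∃ b ∈ B, b • w = h}.encard ≤ n := by
    refine encard_le_of_finset fun F hF => hd F fun h hh k hk hne => ?_
    obtain ⟨a, ha, rfl⟩ := hF (Finset.mem_coe.2 hh)
    obtain ⟨b, hb, rfl⟩ := hF (Finset.mem_coe.2 hk)
    exact (hc2 a ha b hb).resolve_left hne
  have horbf := Set.finite_of_encard_le_coe horb
  let U : Set H := {k | k ∉ y.U ∧ ∃ b ∈ B, b • w ≤ k}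
  have hUf : U.Finite := by
    refine (horbf.biUnion fun h _ => dep_fin y h).subset ?_
    rintro k ⟨h1, b, hb, h2⟩
    exact Set.mem_iUnion₂.2 ⟨b • w, ⟨b, hb, rfl⟩, h2, h1⟩
  obtain ⟨z, hz⟩ := exists_mv y (U := U) hUf (fun h hh => hh.1)
    (fun h hh k hk hky => ⟨hky, by obtain ⟨_, b, hb, h2⟩ := hh; exact ⟨b, hb, h2.trans hk⟩⟩) (by
      rintro h ⟨_, a, ha, h1⟩ k ⟨_, b, hb, h2⟩ e
      have h3 : a • w ≤ st (b • w) := h1.trans (e.trans (st_le h2))
      rcases hc2 a ha b hb with h4 | h4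
      · rw [h4] at h3
        exact Poc.not_le _ h3
      · exact h4.2.2.1 h3)
  have hsmU : ∀ b ∈ B, ∀ k, k ∈ U → b • k ∈ U := by
    rintro b hb k ⟨h1, a, ha, h2⟩
    refine ⟨fun h3 => h1 ((hmem b hb k).1 h3), b * a, B.mul_mem hb ha, ?_⟩
    rw [mul_smul]
    exact smul_le.2 h2
  refine ⟨z, fun b hb => ?_, ?_⟩
  · refine eq_of_diff (x := y) ?_
    have h1 : (b • z).U \ y.U = b • (z.U \ y.U) := by
      rw [← diff_smul, hy b hb]
    rw [h1, hz]
    ext k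
    rw [Set.mem_smul_set_iff_inv_smul_mem]
    constructor
    · intro h2
      have := hsmU b hb _ h2
      rwa [smul_inv_smul] at this
    · intro h2
      exact hsmU _ (B.inv_mem hb) _ h2
  · unfold ds dep
    rw [hz]
    refine Set.ncard_le_ncard ?_ hUf
    rintro k ⟨h1, h2⟩
    exact ⟨h2, 1, B.one_mem, by rwa [one_smul]⟩

end

end Pool.Agent.H88.CX.Fv
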