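import Pool.Agent.H76.GU.TrT
import Mathlib.Analysis.Convex.Combination
import Mathlib.Analysis.Convex.Segment
import Mathlib.LinearAlgebra.AffineSpace.FiniteDimensional

/-!
# THEOREM CCC, chapter TOPOLOGY, Pl: unions of faces of a cube are polyhedra
-/

set_option autoImplicit false

namespace Pool.Agent.H88.CX

open Pool.Agent.H76.GT

variable {m : ℕ}

open Classical in
/-- the vertices of the side of the cube given by the coordinate `a` -/
noncomputable def sd (a : ℝ) : Set ℝ := if a = 0 then {0} else if a = 1 then {1} else {0, 1}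

theorem sd_mem (a : ℝ) : sd a ∈ ({{0}, {1}, {0, 1}} : Set (Set ℝ)) := by
  unfold sd
  by_cases h0 : a = 0
  · rw [if_pos h0]
    exact Or.inl rfl
  · rw [if_neg h0]
    by_cases h1 : a = 1
    · rw [if_pos h1]
      exact Or.inr (Or.inl rfl)
    · rw [if_neg h1]
      exact Or.inr (Or.inr rfl)

theorem sd_finite (a : ℝ) : (sd a).Finite := by
  rcases sd_mem a with h | h | h
  · rw [h]
    exact Set.finite_singleton _
  · rw [h]
    exact Set.finite_singleton _
  · rw [h]
    exact (Set.finite_singleton _).insert _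

theorem mem_hull_sd {a b : ℝ} : b ∈ convexHull ℝ (sd a) ↔ (0 ≤ b ∧ b ≤ 1) ∧ (a = 0 ∨ a = 1 → b = a) := by
  unfold sd
  by_cases h0 : a = 0
  · rw [if_pos h0, convexHull_singleton, Set.mem_singleton_iff]
    constructor
    · intro h
      subst h
      exact ⟨⟨le_refl _, zero_le_one⟩, fun _ => h0.symm⟩
    · intro h
      rw [h.2 (Or.inl h0), h0]
  · rw [if_neg h0]
    by_cases h1 : a = 1
    · rw [if_pos h1, convexHull_singleton, Set.mem_singleton_iff]
      constructor
      · intro h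
        subst h
        exact ⟨⟨zero_le_one, le_refl _⟩, fun _ => h1.symm⟩
      · intro h
        rw [h.2 (Or.inr h1), h1]
    · rw [if_neg h1, convexHull_pair, segment_eq_Icc zero_le_one]
      constructor
      · intro h
        exact ⟨h, fun h' => (h'.elim h0 h1).elim⟩
      · intro h
        exact h.1

/-- the vertices of the face of `v` -/
noncomputable def fc (v : Fin m → ℝ) : Set (Fin m → ℝ) := Set.pi Set.univ fun i => sd (v i)

theorem fc_finite (v : Fin m → ℝ) : (fc v).Finite := Set.Finite.pi fun i => sd_finite (v i)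

theorem mem_hull_fc {v w : Fin m → ℝ} :
    w ∈ convexHull ℝ (fc v) ↔ ∀ i, (0 ≤ w i ∧ w i ≤ 1) ∧ (v i = 0 ∨ v i = 1 → w i = v i) := by
  unfold fc
  rw [convexHull_pi, Set.mem_univ_pi]
  exact forall_congr' fun i => mem_hull_sd

theorem finrank_fc (v : Fin m → ℝ) : Module.finrank ℝ (vectorSpan ℝ (fc v)) ≤ {i | v i ≠ 0 ∧ v i ≠ 1}.ncard := by
  classical
  have h1 : vectorSpan ℝ (fc v) ≤
      Submodule.span ℝ ((fun i : Fin m => (Pi.single i 1 : Fin m → ℝ)) '' {i | v i ≠ 0 ∧ v i ≠ 1}) := by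
    unfold vectorSpan
    rw [Submodule.span_le]
    rintro z ⟨x, hx, y, hy, rfl⟩
    show x - y ∈ Submodule.span ℝ _
    have h2 : x - y = ∑ i, (x i - y i) • (Pi.single i 1 : Fin m → ℝ) := by
      funext j
      rw [Finset.sum_apply, Finset.sum_eq_single j]
      · simp
      · intro i _ hi
        simp [Pi.single_apply, hi.symm]
      · intro h
        exact (h (Finset.mem_univ j)).elim
    rw [h2]
    refine Submodule.sum_mem _ fun i _ => ?_
    by_cases h3 : v i ≠ 0 ∧ v i ≠ 1
    · exact Submodule.smul_mem _ _ (Submodule.subset_span ⟨i, h3, rfl⟩)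
    · have h4 : v i = 0 ∨ v i = 1 := by
        by_contra h5
        exact h3 (not_or.mp h5)
      have h6 := (mem_hull_sd (a := v i) (b := x i)).mp (subset_convexHull ℝ _ (hx i (Set.mem_univ i)))
      have h7 := (mem_hull_sd (a := v i) (b := y i)).mp (subset_convexHull ℝ _ (hy i (Set.mem_univ i)))
      rw [h6.2 h4, h7.2 h4, sub_self, zero_smul]
      exact Submodule.zero_mem _
  refine (Submodule.finrank_mono h1).trans ?_
  have h8 : ((fun i : Fin m => (Pi.single i 1 : Fin m → ℝ)) '' {i | v i ≠ 0 ∧ v i ≠ 1}).Finite :=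
    Set.Finite.image _ (Set.toFinite _)
  letI := h8.fintype
  refine (finrank_span_le_card _).trans ?_
  rw [← Set.ncard_eq_toFinset_card']
  exact Set.ncard_image_le (Set.toFinite _)

/-- a union of faces of a cube, of dimension at most `n`, is a polyhedron -/
theorem isPolyhedron_of {n : ℕ} {K : Set (Fin m → ℝ)} (h01 : ∀ v ∈ K, ∀ i, 0 ≤ v i ∧ v i ≤ 1)
    (hcl : ∀ v ∈ K, ∀ w : Fin m → ℝ, (∀ i, 0 ≤ w i ∧ w i ≤ 1) → (∀ i, v i = 0 ∨ v i = 1 → w i = v i) → w ∈ K)
    (hn : ∀ v ∈ K, {i | v i ≠ 0 ∧ v i ≠ 1}.ncard ≤ n) : IsPolyhedron n K := by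
  refine ⟨fc '' K, ?_, ?_, ?_⟩
  · have h1 : (Set.pi Set.univ fun _ : Fin m => ({{0}, {1}, {0, 1}} : Set (Set ℝ))).Finite :=
      Set.Finite.pi fun _ => ((Set.finite_singleton _).insert _).insert _
    refine (h1.image fun s => Set.pi Set.univ s).subset ?_
    rintro _ ⟨v, _, rfl⟩
    exact ⟨fun i => sd (v i), fun i _ => sd_mem (v i), rfl⟩
  · ext w
    rw [Set.mem_iUnion₂]
    constructor
    · intro hw
      exact ⟨fc w, ⟨w, hw, rfl⟩, mem_hull_fc.mpr fun i => ⟨h01 w hw i, fun _ => rfl⟩⟩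
    · rintro ⟨_, ⟨v, hv, rfl⟩, h2⟩
      have h3 := mem_hull_fc.mp h2
      exact hcl v hv w (fun i => (h3 i).1) fun i => (h3 i).2
  · rintro _ ⟨v, hv, rfl⟩
    exact ⟨fc_finite v, (finrank_fc v).trans (hn v hv)⟩

end Pool.Agent.H88.CX
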