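import Pool.Agent.H76.GU.TrT
import Mathlib.Topology.Homotopy.Contractible
import Mathlib.Topology.UnitInterval
import Mathlib.Analysis.Convex.Combination

/-!
# THEOREM CCC, chapter TOPOLOGY, Sp: pocsets and the space of cube coordinates
-/

set_option autoImplicit false

namespace Pool.Agent.H88.CX

open unitInterval

/-- a pocset: a partially ordered set with an order reversing involution without fixed points (half-spaces, complements) -/
class Poc (H : Type) [PartialOrder H] where
  /-- the complementary half-space -/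
  st : H → H
  st_st : ∀ h, st (st h) = h
  st_le : ∀ {h k : H}, h ≤ k → st k ≤ st h
  ne_st : ∀ h, h ≠ st h

export Poc (st)

section basic

variable {H : Type} [PartialOrder H] [Poc H]

@[simp] theorem st_st (h : H) : st (st h) = h := Poc.st_st h

theorem st_le {h k : H} (e : h ≤ k) : st k ≤ st h := Poc.st_le e

theorem st_le_iff {h k : H} : st k ≤ st h ↔ h ≤ k := by
  constructor
  · intro e
    have := st_le e
    rwa [st_st, st_st] at this
  · exact st_le

theorem st_inj {h k : H} (e : st h = st k) : h = k := by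
  rw [← st_st h, e, st_st]

theorem st_lt {h k : H} (e : h < k) : st k < st h :=
  lt_of_le_of_ne (st_le e.le) fun e' => e.ne (st_inj e').symm

theorem st_lt_iff {h k : H} : st k < st h ↔ h < k := by
  constructor
  · intro e
    have := st_lt e
    rwa [st_st, st_st] at this
  · exact st_lt

theorem le_st_comm {h k : H} : h ≤ st k ↔ k ≤ st h := by
  constructor <;> intro e
  · have := st_le e
    rwa [st_st] at this
  · have := st_le e
    rwa [st_st] at this

theorem st_le_comm {h k : H} : st h ≤ k ↔ st k ≤ h := by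
  constructor <;> intro e
  · have := st_le e
    rwa [st_st] at this
  · have := st_le e
    rwa [st_st] at this

/-- two half-spaces cross -/
def Crs (h k : H) : Prop := ¬ h ≤ k ∧ ¬ k ≤ h ∧ ¬ h ≤ st k ∧ ¬ st h ≤ k

/-- pairwise crossing families of half-spaces have at most `n` members -/
def Dim (H : Type) [PartialOrder H] [Poc H] (n : ℕ) : Prop :=
  ∀ A : Finset H, (∀ h ∈ A, ∀ k ∈ A, h ≠ k → Crs h k) → A.card ≤ n

/-- `x` (the set of the half-spaces which contain the point `x`) is an ultrafilter -/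
structure IsVertex (x : Set H) : Prop where
  st_mem : ∀ h, st h ∈ x ↔ h ∉ x
  up : ∀ {h k : H}, h ∈ x → h ≤ k → k ∈ x

theorem IsVertex.st_notMem {x : Set H} (hx : IsVertex x) {h : H} : st h ∉ x ↔ h ∈ x := by
  rw [hx.st_mem, not_not]

end basic

/-- the group `G` acts on the pocset `H` -/
class ActPoc (G H : Type) [Group G] [MulAction G H] [PartialOrder H] [Poc H] : Prop where
  smul_le : ∀ (g : G) {h k : H}, h ≤ k → g • h ≤ g • k
  smul_st : ∀ (g : G) (h : H), g • st h = st (g • h)

section act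

variable {G H : Type} [Group G] [MulAction G H] [PartialOrder H] [Poc H] [ActPoc G H]

theorem smul_le_smul (g : G) {h k : H} (e : h ≤ k) : g • h ≤ g • k := ActPoc.smul_le g e

theorem smul_le_iff (g : G) {h k : H} : g • h ≤ g • k ↔ h ≤ k := by
  constructor
  · intro e
    have := smul_le_smul g⁻¹ e
    rwa [inv_smul_smul, inv_smul_smul] at this
  · exact smul_le_smul g

theorem smul_lt_iff (g : G) {h k : H} : g • h < g • k ↔ h < k := by
  rw [lt_iff_le_not_ge, lt_iff_le_not_ge, smul_le_iff, smul_le_iff]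

theorem smul_st (g : G) (h : H) : g • st h = st (g • h) := ActPoc.smul_st g h

end act

/-- the space of cube coordinates: `ψ h` in `[0, 1]` is the position of the point with respect to the half-space `h` -/
structure Xh (H : Type) [PartialOrder H] [Poc H] where
  /-- the coordinates -/
  f : H → I
  st_eq' : ∀ h, f (st h) = σ (f h)
  lt_or' : ∀ {h k : H}, h < k → f h = 0 ∨ f k = 1

namespace Xh

section

variable {H : Type} [PartialOrder H] [Poc H]

instance : TopologicalSpace (Xh H) := TopologicalSpace.induced Xh.f inferInstance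

instance : CoeFun (Xh H) fun _ => H → I := ⟨Xh.f⟩

theorem st_eq (ψ : Xh H) (h : H) : ψ (st h) = σ (ψ h) := ψ.st_eq' h

theorem lt_or (ψ : Xh H) {h k : H} (e : h < k) : ψ h = 0 ∨ ψ k = 1 := ψ.lt_or' e

theorem ext {ψ φ : Xh H} (e : ∀ h, ψ h = φ h) : ψ = φ := by
  obtain ⟨f, _, _⟩ := ψ
  obtain ⟨g, _, _⟩ := φ
  have h1 : f = g := funext e
  subst h1
  rfl

theorem isEmbedding : Topology.IsEmbedding (Xh.f (H := H)) :=
  ⟨⟨rfl⟩, fun _ _ e => ext fun h => congrFun e h⟩

theorem continuous_f : Continuous (Xh.f (H := H)) := isEmbedding.continuous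

theorem continuous_apply (h : H) : Continuous fun ψ : Xh H => ψ h :=
  (_root_.continuous_apply h).comp continuous_f

theorem continuous_mk {T : Type} [TopologicalSpace T] {F : T → Xh H} (h : ∀ h, Continuous fun t => F t h) :
    Continuous F := isEmbedding.continuous_iff.mpr (continuous_pi h)

/-- the set of the coordinate functions -/
def car (H : Type) [PartialOrder H] [Poc H] : Set (H → I) :=
  (⋂ h, {ψ : H → I | ψ (st h) = σ (ψ h)}) ∩
    ⋂ h, ⋂ k, ⋂ _ : h < k, ({ψ : H → I | ψ h = 0} ∪ {ψ : H → I | ψ k = 1})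

theorem isClosed_car : IsClosed (car H) := by
  refine IsClosed.inter ?_ ?_
  · exact isClosed_iInter fun h => isClosed_eq (_root_.continuous_apply _)
      (continuous_symm.comp (_root_.continuous_apply _))
  · exact isClosed_iInter fun h => isClosed_iInter fun k => isClosed_iInter fun _ =>
      (isClosed_eq (_root_.continuous_apply _) continuous_const).union
        (isClosed_eq (_root_.continuous_apply _) continuous_const)

theorem range_f : Set.range (Xh.f (H := H)) = car H := by
  ext ψ
  constructor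
  · rintro ⟨φ, rfl⟩
    refine ⟨Set.mem_iInter.mpr fun h => φ.st_eq h, ?_⟩
    exact Set.mem_iInter.mpr fun h => Set.mem_iInter.mpr fun k => Set.mem_iInter.mpr fun e => φ.lt_or e
  · rintro ⟨h1, h2⟩
    refine ⟨⟨ψ, fun h => Set.mem_iInter.mp h1 h, fun {h k} e => ?_⟩, rfl⟩
    exact Set.mem_iInter.mp (Set.mem_iInter.mp (Set.mem_iInter.mp h2 h) k) e

theorem isClosedEmbedding : Topology.IsClosedEmbedding (Xh.f (H := H)) :=
  ⟨isEmbedding, by rw [range_f]; exact isClosed_car⟩

instance : CompactSpace (Xh H) := isClosedEmbedding.compactSpace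

instance : T2Space (Xh H) := isEmbedding.t2Space

instance [Countable H] : SecondCountableTopology (Xh H) := isEmbedding.secondCountableTopology

/-- two fractional half-spaces are equal, complementary or cross -/
theorem crs_of_frac (ψ : Xh H) {h k : H} (h0 : ψ h ≠ 0) (h1 : ψ h ≠ 1) (k0 : ψ k ≠ 0) (k1 : ψ k ≠ 1) (e : h ≠ k)
    (e' : h ≠ st k) : Crs h k := by
  have s0 : ψ (st h) ≠ 0 := by
    intro a
    rw [st_eq] at a
    exact h1 (by rw [← symm_symm (ψ h), a, symm_zero])
  have s1 : ψ (st k) ≠ 1 := by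
    intro a
    rw [st_eq] at a
    exact k0 (by rw [← symm_symm (ψ k), a, symm_one])
  refine ⟨fun a => ?_, fun a => ?_, fun a => ?_, fun a => ?_⟩
  · exact (ψ.lt_or (lt_of_le_of_ne a e)).elim h0 k1
  · exact (ψ.lt_or (lt_of_le_of_ne a e.symm)).elim k0 h1
  · exact (ψ.lt_or (lt_of_le_of_ne a e')).elim h0 s1
  · refine (ψ.lt_or (lt_of_le_of_ne a ?_)).elim s0 k1
    intro b
    exact e' (by rw [← b, st_st])

end

section

variable {G H : Type} [Group G] [MulAction G H] [PartialOrder H] [Poc H] [ActPoc G H]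

instance : MulAction G (Xh H) where
  smul g ψ := ⟨fun h => ψ (g⁻¹ • h), fun h => by
    show ψ (g⁻¹ • st h) = σ (ψ (g⁻¹ • h))
    rw [smul_st, st_eq], fun e => ψ.lt_or ((smul_lt_iff g⁻¹).mpr e)⟩
  one_smul ψ := ext fun h => by
    show ψ ((1 : G)⁻¹ • h) = ψ h
    rw [inv_one, one_smul]
  mul_smul g g' ψ := ext fun h => by
    show ψ ((g * g')⁻¹ • h) = ψ (g'⁻¹ • g⁻¹ • h)
    rw [mul_inv_rev, mul_smul]

theorem smul_apply (g : G) (ψ : Xh H) (h : H) : (g • ψ) h = ψ (g⁻¹ • h) := rfl

instance : ContinuousConstSMul G (Xh H) where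
  continuous_const_smul g := continuous_mk fun h => continuous_apply (g⁻¹ • h)

end

section

variable {H : Type} [PartialOrder H] [Poc H]

open Classical in
/-- cutting the coordinates of the half-spaces which do not contain the base vertex at the heights `u` -/
noncomputable def cutv (x0 : Set H) (u ψ : H → I) (h : H) : I :=
  if h ∈ x0 then σ (min (ψ (st h)) (u (st h))) else min (ψ h) (u h)

theorem cutv_of_mem {x0 : Set H} (u ψ : H → I) {h : H} (e : h ∈ x0) :
    cutv x0 u ψ h = σ (min (ψ (st h)) (u (st h))) := if_pos e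

theorem cutv_of_notMem {x0 : Set H} (u ψ : H → I) {h : H} (e : h ∉ x0) : cutv x0 u ψ h = min (ψ h) (u h) := if_neg e

theorem cutv_st {x0 : Set H} (hx : IsVertex x0) (u ψ : H → I) (h : H) : cutv x0 u ψ (st h) = σ (cutv x0 u ψ h) := by
  by_cases e : h ∈ x0
  · rw [cutv_of_mem u ψ e, cutv_of_notMem u ψ (hx.st_notMem.mpr e), symm_symm]
  · rw [cutv_of_notMem u ψ e, cutv_of_mem u ψ ((hx.st_mem h).mpr e), st_st]

/-- `u` is admissible as a family of heights -/
def Adm (x0 : Set H) (u : H → I) : Prop := ∀ h k, h ∉ x0 → k ∉ x0 → h < k → u h = 0 ∨ u k = 1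

theorem min_zero' (a : I) : min a 0 = 0 := min_eq_right (unitInterval.nonneg' )

theorem zero_min' (a : I) : min 0 a = 0 := min_eq_left (unitInterval.nonneg')

theorem cutv_lt {x0 : Set H} (hx : IsVertex x0) {u : H → I} (hu : Adm x0 u) (ψ : Xh H) {h k : H} (e : h < k) :
    cutv x0 u ψ h = 0 ∨ cutv x0 u ψ k = 1 := by
  have key : ∀ a b : H, a ∉ x0 → b ∉ x0 → a < b → min (ψ a) (u a) = 0 ∨ min (ψ b) (u b) = 1 := by
    intro a b ha hb hab
    rcases hu a b ha hb hab with h1 | h1
    · left
      rw [h1, min_zero']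
    · rcases ψ.lt_or hab with h2 | h2
      · left
        rw [h2, zero_min']
      · right
        rw [h1, h2, min_self]
  by_cases h1 : h ∈ x0
  · have h2 : k ∈ x0 := hx.up h1 e.le
    rw [cutv_of_mem u ψ h1, cutv_of_mem u ψ h2]
    rcases key (st k) (st h) (hx.st_notMem.mpr h2) (hx.st_notMem.mpr h1) (st_lt e) with h3 | h3
    · right
      rw [h3, symm_zero]
    · left
      rw [h3, symm_one]
  · by_cases h2 : k ∈ x0
    · rw [cutv_of_notMem u ψ h1, cutv_of_mem u ψ h2]
      rcases ψ.lt_or e with h3 | h3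
      · left
        rw [h3, zero_min']
      · right
        rw [ψ.st_eq, h3, symm_one, zero_min', symm_zero]
    · rw [cutv_of_notMem u ψ h1, cutv_of_notMem u ψ h2]
      exact key h k h1 h2 e

/-- the cut of a point -/
noncomputable def cut {x0 : Set H} (hx : IsVertex x0) (u : H → I) (hu : Adm x0 u) (ψ : Xh H) : Xh H :=
  ⟨cutv x0 u ψ, cutv_st hx u ψ, fun e => cutv_lt hx hu ψ e⟩

theorem cut_apply {x0 : Set H} (hx : IsVertex x0) (u : H → I) (hu : Adm x0 u) (ψ : Xh H) (h : H) :
    cut hx u hu ψ h = cutv x0 u ψ h := rfl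

/-- the heights depend continuously on a parameter -/
theorem continuous_cut {T : Type} [TopologicalSpace T] {x0 : Set H} (hx : IsVertex x0) (u : T → H → I)
    (hu : ∀ t, Adm x0 (u t)) (hc : ∀ h, Continuous fun t => u t h) :
    Continuous fun q : T × Xh H => cut hx (u q.1) (hu q.1) q.2 := by
  refine continuous_mk fun h => ?_
  by_cases e : h ∈ x0
  · have h1 : (fun q : T × Xh H => cut hx (u q.1) (hu q.1) q.2 h) = fun q => σ (min (q.2 (st h)) (u q.1 (st h))) := by
      funext q
      exact cutv_of_mem _ _ e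
    rw [h1]
    exact continuous_symm.comp
      (((continuous_apply (st h)).comp continuous_snd).min ((hc (st h)).comp continuous_fst))
  · have h1 : (fun q : T × Xh H => cut hx (u q.1) (hu q.1) q.2 h) = fun q => min (q.2 h) (u q.1 h) := by
      funext q
      exact cutv_of_notMem _ _ e
    rw [h1]
    exact ((continuous_apply h).comp continuous_snd).min ((hc h).comp continuous_fst)

end

end Xh

/-- the piecewise linear function on `[0, 1]` which is `0` up to `1 - 2 ^ (-n)` and `1` from `1 - 2 ^ (-n-1)` on -/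
noncomputable def ramp (n : ℕ) (t : I) : I := Set.projIcc 0 1 zero_le_one (2 ^ (n + 1) * ((t : ℝ) - 1) + 2)

theorem continuous_ramp (n : ℕ) : Continuous (ramp n) :=
  continuous_projIcc.comp (by fun_prop)

theorem ramp_zero (n : ℕ) : ramp n 0 = 0 := by
  refine Set.projIcc_of_le_left _ ?_
  have h1 : (1 : ℝ) ≤ 2 ^ n := one_le_pow₀ one_le_two
  rw [show ((0 : I) : ℝ) = 0 from rfl, pow_succ]
  linarith

theorem ramp_one (n : ℕ) : ramp n 1 = 1 := by
  refine Set.projIcc_of_right_le _ ?_
  rw [show ((1 : I) : ℝ) = 1 from rfl]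
  norm_num

theorem ramp_lt {m n : ℕ} (h : m < n) (t : I) : ramp n t = 0 ∨ ramp m t = 1 := by
  by_cases h1 : 2 ^ (n + 1) * ((t : ℝ) - 1) + 2 ≤ 0
  · exact Or.inl (Set.projIcc_of_le_left _ h1)
  · right
    refine Set.projIcc_of_right_le _ ?_
    obtain ⟨d, rfl⟩ := Nat.exists_eq_add_of_lt h
    have h2 : (t : ℝ) - 1 ≤ 0 := by linarith [t.2.2]
    have h3 : (0 : ℝ) < 2 ^ (m + 1) := by positivity
    have h4 : (2 : ℝ) ^ (m + d + 1 + 1) = 2 ^ (m + 1) * 2 ^ d * 2 := by
      rw [show m + d + 1 + 1 = (m + 1) + d + 1 by omega, pow_succ, pow_add]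
    have h5 : (1 : ℝ) ≤ 2 ^ d := one_le_pow₀ one_le_two
    rw [h4] at h1
    have h6 : (2 : ℝ) ^ (m + 1) * ((t : ℝ) - 1) ≤ 0 := mul_nonpos_of_nonneg_of_nonpos h3.le h2
    nlinarith

end Pool.Agent.H88.CX
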