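import Pool.Agent.H88.CX.Ct
import Pool.Agent.H88.CX.Pl

/-!
# THEOREM CCC, chapter TOPOLOGY, Td: the space of cube coordinates is dominated by polyhedra of dimension at most `n`
-/

set_option autoImplicit false

namespace Pool.Agent.H88.CX

open unitInterval Pool.Agent.H76.GT

variable {H : Type} [PartialOrder H] [Poc H]

/-- a neighbourhood of the diagonal contains all pairs which agree on a finite set of half-spaces -/
theorem exists_fin {W : Set (Xh H × Xh H)} (hW : IsOpen W) (hd : ∀ x, (x, x) ∈ W) :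
    ∃ F : Finset H, ∀ φ ψ : Xh H, (∀ h ∈ F, φ h = ψ h) → (φ, ψ) ∈ W := by
  have h1 : IsCompact Wᶜ := hW.isClosed_compl.isCompact
  obtain ⟨F, hF⟩ := h1.elim_finite_subfamily_closed (fun h : H => {q : Xh H × Xh H | q.1 h = q.2 h})
    (fun h => isClosed_eq ((Xh.continuous_apply h).comp continuous_fst) ((Xh.continuous_apply h).comp continuous_snd))
    (by
      rw [Set.eq_empty_iff_forall_notMem]
      rintro ⟨φ, ψ⟩ ⟨h2, h3⟩
      apply h2
      have h4 : φ = ψ := Xh.ext fun h => Set.mem_iInter.mp h3 h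
      rw [h4]
      exact hd ψ)
  refine ⟨F, fun φ ψ h => ?_⟩
  by_contra h2
  have h3 : (φ, ψ) ∈ (∅ : Set (Xh H × Xh H)) := by
    rw [← hF]
    exact ⟨h2, Set.mem_iInter₂.mpr fun h' hh' => h h' hh'⟩
  exact h3

/-- the half-spaces which matter for `F` -/
def Jof (x0 : Set H) (F : Finset H) : Set H :=
  {k | k ∉ x0 ∧ ∃ h ∈ F, (h ∉ x0 ∧ h ≤ k) ∨ (st h ∉ x0 ∧ st h ≤ k)}

theorem Jof_finite {x0 : Set H} (hf : FinUp x0) (F : Finset H) : (Jof x0 F).Finite := by
  have h1 : ∀ h : H, {k | (h ∉ x0 ∧ h ≤ k) ∧ k ∉ x0}.Finite := by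
    intro h
    by_cases e : h ∈ x0
    · refine Set.Finite.subset Set.finite_empty ?_
      rintro k ⟨⟨h2, _⟩, _⟩
      exact (h2 e).elim
    · refine (hf h e).subset ?_
      rintro k ⟨⟨_, h2⟩, h3⟩
      exact ⟨h2, h3⟩
  refine (F.finite_toSet.biUnion fun h _ => (h1 h).union (h1 (st h))).subset ?_
  rintro k ⟨hk, h, hh, h2⟩
  refine Set.mem_iUnion₂.mpr ⟨h, hh, ?_⟩
  rcases h2 with h2 | h2
  · exact Or.inl ⟨h2, hk⟩
  · exact Or.inr ⟨h2, hk⟩

theorem Jof_up (x0 : Set H) (F : Finset H) : ∀ h k, h ∈ Jof x0 F → h ≤ k → k ∉ x0 → k ∈ Jof x0 F := by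
  rintro h k ⟨_, a, ha, h2⟩ e hk
  refine ⟨hk, a, ha, ?_⟩
  rcases h2 with h2 | h2
  · exact Or.inl ⟨h2.1, h2.2.trans e⟩
  · exact Or.inr ⟨h2.1, h2.2.trans e⟩

open Classical in
/-- the point of the space with given coordinates off the base vertex -/
noncomputable def mk0 {x0 : Set H} (hx : IsVertex x0) (b : H → I)
    (h1 : ∀ h k, h ∉ x0 → k ∉ x0 → h < k → b h = 0 ∨ b k = 1)
    (h2 : ∀ h k, h ∉ x0 → k ∉ x0 → h ≤ st k → b h = 0 ∨ b k = 0) : Xh H where
  f h := if h ∈ x0 then σ (b (st h)) else b h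
  st_eq' h := by
    by_cases e : h ∈ x0
    · rw [if_neg (hx.st_notMem.mpr e), if_pos e, symm_symm]
    · rw [if_pos ((hx.st_mem h).mpr e), if_neg e, st_st]
  lt_or' {h k} e := by
    by_cases e1 : h ∈ x0
    · have e2 : k ∈ x0 := hx.up e1 e.le
      rw [if_pos e1, if_pos e2]
      rcases h1 (st k) (st h) (hx.st_notMem.mpr e2) (hx.st_notMem.mpr e1) (st_lt e) with h3 | h3
      · right
        rw [h3, symm_zero]
      · left
        rw [h3, symm_one]
    · by_cases e2 : k ∈ x0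
      · rw [if_neg e1, if_pos e2]
        rcases h2 h (st k) e1 (hx.st_notMem.mpr e2) (by rw [st_st]; exact e.le) with h3 | h3
        · exact Or.inl h3
        · right
          rw [h3, symm_zero]
      · rw [if_neg e1, if_neg e2]
        exact h1 h k e1 e2 e

theorem mk0_apply {x0 : Set H} (hx : IsVertex x0) (b : H → I)
    (h1 : ∀ h k, h ∉ x0 → k ∉ x0 → h < k → b h = 0 ∨ b k = 1)
    (h2 : ∀ h k, h ∉ x0 → k ∉ x0 → h ≤ st k → b h = 0 ∨ b k = 0) {h : H} (e : h ∉ x0) : mk0 hx b h1 h2 h = b h :=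
  if_neg e

theorem mk0_apply' {x0 : Set H} (hx : IsVertex x0) (b : H → I)
    (h1 : ∀ h k, h ∉ x0 → k ∉ x0 → h < k → b h = 0 ∨ b k = 1)
    (h2 : ∀ h k, h ∉ x0 → k ∉ x0 → h ≤ st k → b h = 0 ∨ b k = 0) {h : H} (e : h ∈ x0) :
    mk0 hx b h1 h2 h = σ (b (st h)) :=
  if_pos e

/-- the polyhedron of the coordinates in the range of `e` -/
def Kof {m : ℕ} (e : Fin m → H) : Set (Fin m → ℝ) :=
  {v | (∀ i, 0 ≤ v i ∧ v i ≤ 1) ∧ (∀ i j, e i < e j → v i = 0 ∨ v j = 1) ∧
    ∀ i j, e i ≤ st (e j) → v i = 0 ∨ v j = 0}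

theorem isPolyhedron_Kof {n m : ℕ} {x0 : Set H} (hx : IsVertex x0) (hd : Dim H n) (e : Fin m → H)
    (he : Function.Injective e) (hex : ∀ i, e i ∉ x0) : IsPolyhedron n (Kof e) := by
  classical
  refine isPolyhedron_of (fun v hv => hv.1) ?_ ?_
  · rintro v ⟨_, hv1, hv2⟩ w hw hvw
    refine ⟨hw, fun i j hij => ?_, fun i j hij => ?_⟩
    · rcases hv1 i j hij with h | h
      · left
        rw [hvw i (Or.inl h), h]
      · right
        rw [hvw j (Or.inr h), h]
    · rcases hv2 i j hij with h | h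
      · left
        rw [hvw i (Or.inl h), h]
      · right
        rw [hvw j (Or.inl h), h]
  · rintro v ⟨_, hv1, hv2⟩
    have h1 := hd ((Set.toFinite {i | v i ≠ 0 ∧ v i ≠ 1}).toFinset.image e) ?_
    · rwa [Finset.card_image_of_injective _ he, ← Set.ncard_eq_toFinset_card] at h1
    · intro h hh k hk hne
      obtain ⟨i, hi, rfl⟩ := Finset.mem_image.mp hh
      obtain ⟨j, hj, rfl⟩ := Finset.mem_image.mp hk
      rw [Set.Finite.mem_toFinset] at hi hj
      refine ⟨fun a => ?_, fun a => ?_, fun a => ?_, fun a => ?_⟩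
      · exact (hv1 i j (lt_of_le_of_ne a hne)).elim hi.1 hj.2
      · exact (hv1 j i (lt_of_le_of_ne a hne.symm)).elim hj.1 hi.2
      · exact (hv2 i j a).elim hi.1 hj.1
      · exact hex j (hx.up ((hx.st_mem _).mpr (hex i)) a)

theorem res_mem {m : ℕ} {x0 : Set H} (hx : IsVertex x0) (e : Fin m → H) (hex : ∀ i, e i ∉ x0) (ψ : Xh H) :
    (fun i => ((ψ (e i) : I) : ℝ)) ∈ Kof e := by
  refine ⟨fun i => (ψ (e i)).2, fun i j hij => ?_, fun i j hij => ?_⟩
  · rcases ψ.lt_or hij with h | h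
    · left
      show ((ψ (e i) : I) : ℝ) = 0
      rw [h]
      rfl
    · right
      show ((ψ (e j) : I) : ℝ) = 1
      rw [h]
      rfl
  · have h1 : e i ≠ st (e j) := by
      intro a
      exact hex i (by rw [a]; exact (hx.st_mem _).mpr (hex j))
    rcases ψ.lt_or (lt_of_le_of_ne hij h1) with h | h
    · left
      show ((ψ (e i) : I) : ℝ) = 0
      rw [h]
      rfl
    · right
      show ((ψ (e j) : I) : ℝ) = 0
      rw [ψ.st_eq] at h
      rw [← symm_symm (ψ (e j)), h, symm_one]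
      rfl

/-- the restriction map -/
def resK {m : ℕ} {x0 : Set H} (hx : IsVertex x0) (e : Fin m → H) (hex : ∀ i, e i ∉ x0) : C(Xh H, Kof e) where
  toFun ψ := ⟨fun i => ((ψ (e i) : I) : ℝ), res_mem hx e hex ψ⟩
  continuous_toFun := Continuous.subtype_mk
    (continuous_pi fun i => continuous_subtype_val.comp (Xh.continuous_apply (e i))) _

open Classical in
/-- the coordinates of the extension -/
noncomputable def extv {m : ℕ} {J : Set H} (e : Fin m ≃ J) (v : Fin m → ℝ) (h : H) : I :=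
  if hJ : h ∈ J then Set.projIcc 0 1 zero_le_one (v (e.symm ⟨h, hJ⟩)) else 0

theorem extv_of_mem {m : ℕ} {J : Set H} (e : Fin m ≃ J) (v : Fin m → ℝ) {h : H} (hJ : h ∈ J) :
    extv e v h = Set.projIcc 0 1 zero_le_one (v (e.symm ⟨h, hJ⟩)) := dif_pos hJ

theorem extv_of_notMem {m : ℕ} {J : Set H} (e : Fin m ≃ J) (v : Fin m → ℝ) {h : H} (hJ : h ∉ J) :
    extv e v h = 0 := dif_neg hJ

theorem extv_lt {m : ℕ} {x0 J : Set H} (hJ : ∀ h k, h ∈ J → h ≤ k → k ∉ x0 → k ∈ J) (e : Fin m ≃ J)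
    {v : Fin m → ℝ} (hv : v ∈ Kof fun i => (e i : H)) :
    ∀ h k, h ∉ x0 → k ∉ x0 → h < k → extv e v h = 0 ∨ extv e v k = 1 := by
  intro h k _ hk hlt
  by_cases h1 : h ∈ J
  · have h2 : k ∈ J := hJ h k h1 hlt.le hk
    rw [extv_of_mem e v h1, extv_of_mem e v h2]
    have h3 := hv.2.1 (e.symm ⟨h, h1⟩) (e.symm ⟨k, h2⟩)
    simp only [Equiv.apply_symm_apply] at h3
    rcases h3 hlt with h4 | h4
    · left
      rw [h4]
      exact Set.projIcc_left _
    · right
      rw [h4]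
      exact Set.projIcc_right _
  · left
    exact extv_of_notMem e v h1

theorem extv_st {m : ℕ} {x0 J : Set H} (e : Fin m ≃ J) {v : Fin m → ℝ} (hv : v ∈ Kof fun i => (e i : H)) :
    ∀ h k, h ∉ x0 → k ∉ x0 → h ≤ st k → extv e v h = 0 ∨ extv e v k = 0 := by
  intro h k _ _ hle
  by_cases h1 : h ∈ J
  · by_cases h2 : k ∈ J
    · rw [extv_of_mem e v h1, extv_of_mem e v h2]
      have h3 := hv.2.2 (e.symm ⟨h, h1⟩) (e.symm ⟨k, h2⟩)
      simp only [Equiv.apply_symm_apply] at h3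
      rcases h3 hle with h4 | h4
      · left
        rw [h4]
        exact Set.projIcc_left _
      · right
        rw [h4]
        exact Set.projIcc_left _
    · right
      exact extv_of_notMem e v h2
  · left
    exact extv_of_notMem e v h1

theorem continuous_extv {m : ℕ} {J : Set H} (e : Fin m ≃ J) (h : H) : Continuous fun v : Fin m → ℝ => extv e v h := by
  by_cases h1 : h ∈ J
  · simp only [extv_of_mem e _ h1]
    exact continuous_projIcc.comp (continuous_apply _)
  · simp only [extv_of_notMem e _ h1]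
    exact continuous_const

/-- the extension map -/
noncomputable def extK {m : ℕ} {x0 J : Set H} (hx : IsVertex x0) (hJ : ∀ h k, h ∈ J → h ≤ k → k ∉ x0 → k ∈ J)
    (e : Fin m ≃ J) : C(Kof fun i => (e i : H), Xh H) where
  toFun v := mk0 hx (extv e v.1) (extv_lt hJ e v.2) (extv_st e v.2)
  continuous_toFun := by
    refine Xh.continuous_mk fun h => ?_
    by_cases e1 : h ∈ x0
    · have h1 : (fun v : Kof fun i => (e i : H) => mk0 hx (extv e v.1) (extv_lt hJ e v.2) (extv_st e v.2) h) =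
          fun v => σ (extv e v.1 (st h)) := by
        funext v
        exact mk0_apply' hx _ _ _ e1
      rw [h1]
      exact continuous_symm.comp ((continuous_extv e (st h)).comp continuous_subtype_val)
    · have h1 : (fun v : Kof fun i => (e i : H) => mk0 hx (extv e v.1) (extv_lt hJ e v.2) (extv_st e v.2) h) =
          fun v => extv e v.1 h := by
        funext v
        exact mk0_apply hx _ _ _ e1
      rw [h1]
      exact (continuous_extv e h).comp continuous_subtype_val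

theorem extK_apply {m : ℕ} {x0 J : Set H} (hx : IsVertex x0) (hJ : ∀ h k, h ∈ J → h ≤ k → k ∉ x0 → k ∈ J)
    (e : Fin m ≃ J) (v : Kof fun i => (e i : H)) {h : H} (hh : h ∉ x0) : extK hx hJ e v h = extv e v.1 h :=
  mk0_apply hx (extv e v.1) (extv_lt hJ e v.2) (extv_st e v.2) hh

/-- **Topology chapter.** The space of cube coordinates is dominated by polyhedra of dimension at most `n`. -/
theorem topDom {x0 : Set H} {n : ℕ} (hx : IsVertex x0) (hf : FinUp x0) (hd : Dim H n) : TopDom n (Xh H) := by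
  intro W hW hdiag
  obtain ⟨F, hF⟩ := exists_fin hW hdiag
  have hJ := Jof_up x0 F
  letI : Fintype (Jof x0 F) := (Jof_finite hf F).fintype
  let e : Fin (Fintype.card (Jof x0 F)) ≃ Jof x0 F := (Fintype.equivFin _).symm
  have hex : ∀ i, (e i : H) ∉ x0 := fun i => (e i).2.1
  refine ⟨_, Kof fun i => (e i : H), isPolyhedron_Kof hx hd _ (Subtype.val_injective.comp e.injective) hex,
    resK hx _ hex, extK hx hJ e, hmt hx hf hJ, fun ψ => ?_, fun ψ => hmt_one hx hf hJ ψ, fun t ψ => ?_⟩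
  · refine ext_of hx fun h hh => ?_
    have h1 : extK hx hJ e (resK hx _ hex ψ) h = extv e (fun i => ((ψ (e i) : I) : ℝ)) h := extK_apply hx hJ e _ hh
    rw [h1]
    by_cases h2 : h ∈ Jof x0 F
    · rw [extv_of_mem e _ h2, hmt_of_mem hx hf hJ 0 ψ (fun _ => h2) fun a => (hh a).elim, Equiv.apply_symm_apply]
      exact (Set.projIcc_val zero_le_one (ψ h)).symm
    · rw [extv_of_notMem e _ h2, hmt_zero hx hf hJ ψ hh h2]
  · refine hF _ _ fun h hh => ?_
    refine hmt_of_mem hx hf hJ t ψ (fun a => ⟨a, h, hh, Or.inl ⟨a, le_refl h⟩⟩) fun a => ?_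
    have b : st h ∉ x0 := hx.st_notMem.mpr a
    exact ⟨b, h, hh, Or.inr ⟨b, le_refl _⟩⟩

end Pool.Agent.H88.CX
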